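import Mathlib

/-!
# The discrete valuation ring cut out by an embedding into `ℚ_p`
-/

set_option autoImplicit false

open Module

namespace Pool.Agent.Helper37

section Comap

variable (p : ℕ) [hp : Fact p.Prime] {K₀ : Type*} [Field K₀] (ι : K₀ →+* ℚ_[p])

/-- elements of `K₀` with `p`-adically integral image -/
noncomputable def padicRing : Subring K₀ := (PadicInt.subring p).comap ι

lemma mem_padicRing (x : K₀) : x ∈ padicRing p ι ↔ ‖ι x‖ ≤ 1 := Iff.rfl

/-- the map to `ℤ_p` -/
noncomputable def padicRingHom : padicRing p ι →+* ℤ_[p] where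
  toFun x := ⟨ι x, x.2⟩
  map_one' := Subtype.ext (by simp)
  map_mul' x y := Subtype.ext (map_mul ι _ _)
  map_zero' := Subtype.ext (by simp)
  map_add' x y := Subtype.ext (map_add ι _ _)

lemma isUnit_padicRing_iff (x : padicRing p ι) : IsUnit x ↔ ‖ι (x : K₀)‖ = 1 := by
  constructor
  · intro h
    have h1 := h.map (padicRingHom p ι)
    rw [PadicInt.isUnit_iff] at h1
    exact h1
  · intro h
    have hx0 : (x : K₀) ≠ 0 := by
      intro h0
      rw [h0, map_zero, norm_zero] at h
      exact zero_ne_one h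
    have hinv : ‖ι ((x : K₀)⁻¹)‖ ≤ 1 := by
      rw [map_inv₀, norm_inv, h]; simp
    refine ⟨⟨x, ⟨(x : K₀)⁻¹, hinv⟩, ?_, ?_⟩, rfl⟩
    · exact Subtype.ext (mul_inv_cancel₀ hx0)
    · exact Subtype.ext (inv_mul_cancel₀ hx0)

instance charZero_of_padic : CharZero (padicRing p ι) := by
  have h1 : Function.Injective (padicRingHom p ι) := by
    intro x y h
    have h2 := congrArg (fun z : ℤ_[p] => (z : ℚ_[p])) h
    exact Subtype.ext (ι.injective h2)
  constructor
  intro a b h
  have h2 := congrArg (padicRingHom p ι) h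
  simp only [map_natCast] at h2
  exact_mod_cast h2

lemma norm_eq_pow_of_ne_zero (x : padicRing p ι) (hx : x ≠ 0) :
    ∃ n : ℕ, ‖ι (x : K₀)‖ = ‖(p : ℚ_[p]) ^ n‖ := by
  have hx0 : ι (x : K₀) ≠ 0 := by
    intro h
    exact hx (Subtype.ext ((map_eq_zero ι).1 h))
  have h1 := Padic.norm_eq_zpow_neg_valuation hx0
  have h2 : ‖ι (x : K₀)‖ ≤ 1 := x.2
  have hv : 0 ≤ (ι (x : K₀)).valuation := by
    by_contra hneg
    push Not at hneg
    rw [h1] at h2
    have h3 : (1 : ℝ) < (p : ℝ) ^ (-(ι (x : K₀)).valuation) :=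
      one_lt_zpow₀ (by exact_mod_cast hp.out.one_lt) (by omega)
    exact absurd h2 (not_le.2 h3)
  refine ⟨(ι (x : K₀)).valuation.toNat, ?_⟩
  rw [h1, norm_pow, Padic.norm_p, inv_pow, ← zpow_natCast, ← zpow_neg, Int.toNat_of_nonneg hv]

lemma hasUnitMulPow :
    IsDiscreteValuationRing.HasUnitMulPowIrreducibleFactorization (padicRing p ι) := by
  have hpn : ‖ι ((p : padicRing p ι) : K₀)‖ = (p : ℝ)⁻¹ := by
    simp [Padic.norm_p]
  have hp1 : (1 : ℝ) < p := by exact_mod_cast hp.out.one_lt
  have hp0 : (p : padicRing p ι) ≠ 0 := by exact_mod_cast hp.out.ne_zero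
  refine ⟨(p : padicRing p ι), ?_, ?_⟩
  · rw [irreducible_iff]
    constructor
    · rw [isUnit_padicRing_iff, hpn]
      intro h
      have : (p : ℝ)⁻¹ < 1 := inv_lt_one_of_one_lt₀ hp1
      linarith
    · intro a b hab
      have ha0 : a ≠ 0 := by rintro rfl; rw [zero_mul] at hab; exact hp0 hab
      have hb0 : b ≠ 0 := by rintro rfl; rw [mul_zero] at hab; exact hp0 hab
      obtain ⟨n, hn⟩ := norm_eq_pow_of_ne_zero p ι a ha0
      obtain ⟨m, hm⟩ := norm_eq_pow_of_ne_zero p ι b hb0
      have h1 : ‖ι ((p : padicRing p ι) : K₀)‖ = ‖ι (a : K₀)‖ * ‖ι (b : K₀)‖ := by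
        rw [hab]; simp
      rw [hpn, hn, hm, norm_pow, norm_pow, Padic.norm_p, ← pow_add] at h1
      have h2 : n + m = 1 := by
        have h3 : ((p : ℝ)⁻¹) ^ 1 = ((p : ℝ)⁻¹) ^ (n + m) := by rw [pow_one]; exact h1
        have h4 := pow_right_injective₀ (inv_pos.2 (by linarith))
          (ne_of_lt (inv_lt_one_of_one_lt₀ hp1)) h3
        exact h4.symm
      rw [isUnit_padicRing_iff, isUnit_padicRing_iff]
      rcases Nat.eq_zero_or_pos n with h0 | h0
      · left; rw [hn, h0]; simp
      · right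
        have : m = 0 := by omega
        rw [hm, this]; simp
  · intro x hx
    obtain ⟨n, hn⟩ := norm_eq_pow_of_ne_zero p ι x hx
    refine ⟨n, ?_⟩
    have hpK : ((p : K₀)) ≠ 0 := by
      intro h
      apply hp0
      apply Subtype.ext
      simpa using h
    have hu : ‖ι ((x : K₀) / (p : K₀) ^ n)‖ = 1 := by
      rw [map_div₀, norm_div, hn, map_pow, map_natCast]
      apply div_self
      simp [hp.out.ne_zero]
    let u : padicRing p ι := ⟨(x : K₀) / (p : K₀) ^ n, by rw [mem_padicRing, hu]⟩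
    have huu : IsUnit u := (isUnit_padicRing_iff p ι u).2 hu
    obtain ⟨w, hw⟩ := huu
    refine ⟨w, ?_⟩
    rw [hw]
    apply Subtype.ext
    simp only [u, Subring.coe_mul, SubmonoidClass.coe_pow, SubringClass.coe_natCast]
    rw [mul_div_cancel₀]
    exact pow_ne_zero _ hpK

instance dvr_padicRing : IsDiscreteValuationRing (padicRing p ι) :=
  IsDiscreteValuationRing.ofHasUnitMulPowIrreducibleFactorization (hasUnitMulPow p ι)

lemma p_mem_maximalIdeal : (p : padicRing p ι) ∈ IsLocalRing.maximalIdeal (padicRing p ι) := by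
  rw [IsLocalRing.mem_maximalIdeal]
  intro h
  have h1 := (isUnit_padicRing_iff p ι _).1 h
  have hpn : ‖ι ((p : padicRing p ι) : K₀)‖ = (p : ℝ)⁻¹ := by
    simp [Padic.norm_p]
  rw [hpn] at h1
  have hp1 : (1 : ℝ) < p := by exact_mod_cast hp.out.one_lt
  have : (p : ℝ)⁻¹ < 1 := inv_lt_one_of_one_lt₀ hp1
  linarith

instance isFractionRing_padicRing : IsFractionRing (padicRing p ι) K₀ := by
  refine IsFractionRing.of_field _ _ ?_
  intro z
  by_cases hz : ‖ι z‖ ≤ 1
  · exact ⟨⟨z, hz⟩, 1, by simp; rfl⟩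
  · have hz1 : ‖ι z⁻¹‖ ≤ 1 := by
      rw [map_inv₀, norm_inv]
      exact inv_le_one_of_one_le₀ (le_of_lt (not_le.1 hz))
    refine ⟨1, ⟨z⁻¹, hz1⟩, ?_⟩
    rw [map_one, one_div]
    change z = (z⁻¹)⁻¹
    rw [inv_inv]

lemma card_residueField_padicRing :
    Nat.card (IsLocalRing.ResidueField (padicRing p ι)) = p := by
  let φ : padicRing p ι →+* ZMod p := (PadicInt.toZMod).comp (padicRingHom p ι)
  have hsurj : Function.Surjective φ := by
    intro z
    obtain ⟨n, rfl⟩ := ZMod.natCast_zmod_surjective z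
    exact ⟨n, by simp⟩
  have hker : RingHom.ker φ = IsLocalRing.maximalIdeal (padicRing p ι) := by
    apply IsLocalRing.eq_maximalIdeal
    exact RingHom.ker_isMaximal_of_surjective φ hsurj
  have e : (padicRing p ι ⧸ RingHom.ker φ) ≃+* ZMod p :=
    RingHom.quotientKerEquivOfSurjective hsurj
  rw [hker] at e
  have h1 : Nat.card (padicRing p ι ⧸ IsLocalRing.maximalIdeal (padicRing p ι)) = p := by
    rw [Nat.card_congr e.toEquiv, Nat.card_zmod]
  exact h1

end Comap

section Transcendental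

open Cardinal

/-- `ℚ_p` contains arbitrarily large finite algebraically independent families over `ℚ` -/
lemma exists_algebraicIndependent_padic (p : ℕ) [hp : Fact p.Prime] (r : ℕ) :
    ∃ s : Fin r → ℚ_[p], AlgebraicIndependent ℚ s := by
  obtain ⟨B, hB⟩ := exists_isTranscendenceBasis ℚ ℚ_[p]
  have hinf : B.Infinite := by
    intro hfin
    have halg := hB.isAlgebraic
    have hcount : #(Algebra.adjoin ℚ (Set.range ((↑) : B → ℚ_[p]))) ≤ ℵ₀ := by
      rw [Algebra.adjoin_range_eq_range_aeval ℚ (fun x : B => (x : ℚ_[p]))]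
      have h1 : #(MvPolynomial B ℚ) ≤ ℵ₀ := by
        refine (MvPolynomial.cardinalMk_le_max (σ := B) (R := ℚ)).trans ?_
        have : Countable B := hfin.countable.to_subtype
        simp
      exact (mk_range_le (f := fun P : MvPolynomial B ℚ =>
        MvPolynomial.aeval (R := ℚ) (fun x : B => (x : ℚ_[p])) P)).trans h1
    have h3 := Algebra.IsAlgebraic.cardinalMk_le_max
      (Algebra.adjoin ℚ (Set.range ((↑) : B → ℚ_[p]))) ℚ_[p]
    have h4 : #ℚ_[p] ≤ ℵ₀ := h3.trans (max_le hcount le_rfl)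
    have h5 := continuum_le_cardinal_of_nontriviallyNormedField ℚ_[p]
    exact absurd (h5.trans h4) (not_le.2 aleph0_lt_continuum)
  have : Infinite B := hinf.to_subtype
  let e : Fin r ↪ B := (Fin.valEmbedding.trans (Infinite.natEmbedding B))
  exact ⟨fun i => (e i : ℚ_[p]), hB.1.comp e e.injective⟩

lemma exists_ringHom_adjoin {F E E' ι : Type*} [Field F] [Field E] [Field E'] [Algebra F E]
    [Algebra F E'] (x : ι → E) (y : ι → E') (hx : AlgebraicIndependent F x)
    (hy : AlgebraicIndependent F y) :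
    Nonempty (IntermediateField.adjoin F (Set.range x) →+* E') :=
  ⟨((IntermediateField.adjoin F (Set.range y)).val.toRingHom.comp
    (hy.aevalEquivField.toRingEquiv.toRingHom.comp
      hx.aevalEquivField.symm.toRingEquiv.toRingHom))⟩

/-- a finitely generated purely transcendental extension of `ℚ` embeds into `ℚ_p` -/
lemma exists_embedding_padic (p : ℕ) [hp : Fact p.Prime] (r : ℕ) (t : Fin r → ℂ)
    (ht : AlgebraicIndependent ℚ t) :
    Nonempty (IntermediateField.adjoin ℚ (Set.range t) →+* ℚ_[p]) := by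
  obtain ⟨s, hs⟩ := exists_algebraicIndependent_padic p r
  exact exists_ringHom_adjoin t s ht hs

end Transcendental

end Pool.Agent.Helper37
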