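import Mathlib

/-!
# Integral polynomials irreducible modulo `p`, and extension of scalars of coprime degree
-/

set_option autoImplicit false

open Polynomial IntermediateField

namespace Pool.Agent.Helper37

/-- there is a monic integral polynomial of any degree `m ≥ 1`, irreducible modulo `p` -/
lemma exists_irreducible_mod (p : ℕ) [Fact p.Prime] (m : ℕ) (hm : m ≠ 0) :
    ∃ f : ℤ[X], f.Monic ∧ f.natDegree = m ∧ Irreducible (f.map (Int.castRingHom (ZMod p))) := by
  obtain ⟨α, hα⟩ := Field.exists_primitive_element_of_finite_bot (ZMod p) (GaloisField p m)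
  have hint : IsIntegral (ZMod p) α := Algebra.IsIntegral.isIntegral α
  have hmon := minpoly.monic hint
  obtain ⟨f, hf1, hf2, hf3⟩ := lifts_and_natDegree_eq_and_monic
    (f := Int.castRingHom (ZMod p)) (p := minpoly (ZMod p) α)
    (by
      rw [lifts_iff_coeff_lifts]
      intro n
      exact ZMod.intCast_surjective _) hmon
  refine ⟨f, hf3, ?_, ?_⟩
  · rw [hf2, ← IntermediateField.adjoin.finrank hint, hα, IntermediateField.finrank_top',
      GaloisField.finrank p hm]
  · rw [hf1]; exact minpoly.irreducible hint

/-- a polynomial irreducible mod `p` is squarefree over every field of characteristic `p` -/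
lemma squarefree_map_of_irreducible (p : ℕ) [Fact p.Prime] (f : ℤ[X])
    (hirr : Irreducible (f.map (Int.castRingHom (ZMod p)))) (k : Type*) [Field k] [CharP k p] :
    Squarefree (f.map (Int.castRingHom k)) := by
  have hsep : (f.map (Int.castRingHom (ZMod p))).Separable :=
    PerfectField.separable_of_irreducible hirr
  have h1 : f.map (Int.castRingHom k) = (f.map (Int.castRingHom (ZMod p))).map
      (ZMod.castHom (dvd_refl p) k) := by
    rw [Polynomial.map_map]
    congr 1
    exact RingHom.ext_int _ _
  rw [h1]
  exact (hsep.map).squarefree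

/-- irreducibility is preserved by a finite extension of coprime degree -/
lemma irreducible_map_of_coprime {F : Type*} [Field F] (g : F[X]) (hg : g.Monic)
    (hirr : Irreducible g) (k : Type*) [Field k] [Algebra F k] [FiniteDimensional F k]
    (hc : Nat.Coprime (Module.finrank F k) g.natDegree) :
    Irreducible (g.map (algebraMap F k)) := by
  let E := AlgebraicClosure k
  have hdeg : g.degree ≠ 0 := by
    intro h
    exact hirr.not_isUnit (isUnit_iff_degree_eq_zero.2 h)
  obtain ⟨x, hx⟩ := IsAlgClosed.exists_aeval_eq_zero E g hdeg
  have hint : IsIntegral F x := ⟨g, hg, hx⟩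
  have hmin : g = minpoly F x := minpoly.eq_of_irreducible_of_monic hirr hx hg
  have hfin : Module.finrank F (F⟮x⟯) = g.natDegree := by
    rw [IntermediateField.adjoin.finrank hint, ← hmin]
  have hdisj : (F⟮x⟯).LinearDisjoint k := by
    apply IntermediateField.LinearDisjoint.of_finrank_coprime
    rw [hfin]; exact hc.symm
  have hli : LinearIndependent F (fun i : Fin (minpoly F x).natDegree =>
      (AdjoinSimple.gen F x) ^ (i : ℕ)) := by
    have h := linearIndependent_pow (K := F) (AdjoinSimple.gen F x)
    rw [IntermediateField.minpoly_gen] at h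
    exact h
  have hli2 := hdisj.linearIndependent_left hli
  have hintk : IsIntegral k x := hint.tower_top
  -- degree of the minimal polynomial over `k`
  have hle : (minpoly F x).natDegree ≤ (minpoly k x).natDegree := by
    by_contra hlt
    push Not at hlt
    -- a nontrivial relation
    have hrel : ∑ i : Fin (minpoly F x).natDegree,
        ((minpoly k x).coeff i) • ((F⟮x⟯).val ∘ fun i : Fin (minpoly F x).natDegree =>
          (AdjoinSimple.gen F x) ^ (i : ℕ)) i = 0 := by
      have h0 := minpoly.aeval k x
      rw [aeval_eq_sum_range' hlt] at h0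
      rw [← Fin.sum_univ_eq_sum_range
        (fun i => (minpoly k x).coeff i • x ^ i) (minpoly F x).natDegree] at h0
      rw [← h0]
      refine Finset.sum_congr rfl fun i _ => ?_
      simp
    have h3 := Fintype.linearIndependent_iff.1 hli2 _ hrel ⟨(minpoly k x).natDegree, hlt⟩
    simp only [coeff_natDegree] at h3
    rw [(minpoly.monic hintk).leadingCoeff] at h3
    exact one_ne_zero h3
  have hdvd : minpoly k x ∣ g.map (algebraMap F k) := by
    apply minpoly.dvd
    rw [aeval_map_algebraMap]; exact hx
  have heq : minpoly k x = g.map (algebraMap F k) := by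
    refine (eq_of_monic_of_dvd_of_natDegree_le (minpoly.monic hintk) (hg.map _) hdvd ?_).symm
    rw [hg.natDegree_map]
    rw [← hmin] at hle
    exact hle
  rw [← heq]
  exact minpoly.irreducible hintk

/-- version for finite fields and integral polynomials -/
lemma irreducible_map_of_card (p : ℕ) [Fact p.Prime] (f : ℤ[X]) (hf : f.Monic)
    (hirr : Irreducible (f.map (Int.castRingHom (ZMod p)))) (k : Type*) [Field k] [CharP k p]
    [Finite k] (e : ℕ) (hcard : Nat.card k = p ^ e) (hc : Nat.Coprime e f.natDegree) :
    Irreducible (f.map (Int.castRingHom k)) := by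
  let _ : Algebra (ZMod p) k := ZMod.algebra k p
  have h1 : f.map (Int.castRingHom k) = (f.map (Int.castRingHom (ZMod p))).map
      (algebraMap (ZMod p) k) := by
    rw [Polynomial.map_map]
    congr 1
    exact RingHom.ext_int _ _
  rw [h1]
  have : FiniteDimensional (ZMod p) k := Module.Finite.of_finite
  apply irreducible_map_of_coprime _ (hf.map _) hirr
  have h2 : Module.finrank (ZMod p) k = e := by
    have h3 := Module.natCard_eq_pow_finrank (K := ZMod p) (V := k)
    rw [hcard, Nat.card_zmod] at h3
    exact (Nat.pow_right_injective (Fact.out : p.Prime).two_le h3).symm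
  rw [h2, hf.natDegree_map]
  exact hc

end Pool.Agent.Helper37
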