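import Mathlib

/-!
# An elementary form of the Strassmann / Hansel argument

Let `R` be a local domain of characteristic zero with a rational prime `p` in its maximal ideal and
with `⋂ p^k R = 0`.  If `β : ℕ → R` is given by a Mahler expansion
`β n = ∑ m, c m * p^(2 m) * (n choose m)` and vanishes infinitely often, then `β = 0`.
-/

set_option autoImplicit false

open Polynomial Finset

namespace Pool.Agent.Helper37

section Hansel

variable {R : Type*} [CommRing R]

/-- division by a monic linear factor keeps divisibility of the upper coefficients -/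
lemma coeff_dvd_of_X_sub_C_mul (a t : R) (Q : R[X]) (j : ℕ)
    (h : ∀ i, j + 1 ≤ i → a ∣ ((X - C t) * Q).coeff i) :
    ∀ i, j ≤ i → a ∣ Q.coeff i := by
  -- descending induction
  have key : ∀ k i, Q.natDegree + 1 ≤ i + k → j ≤ i → a ∣ Q.coeff i := by
    intro k
    induction k with
    | zero =>
      intro i hi _
      rw [coeff_eq_zero_of_natDegree_lt (by omega)]
      exact dvd_zero _
    | succ k ih =>
      intro i hi hj
      have h1 := ih (i + 1) (by omega) (by omega)
      have h2 := h (i + 1) (by omega)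
      have h3 : ((X - C t) * Q).coeff (i + 1) = Q.coeff i - t * Q.coeff (i + 1) := by
        rw [sub_mul, coeff_sub, coeff_X_mul, coeff_C_mul]
      rw [h3] at h2
      have := dvd_add h2 (Dvd.dvd.mul_left h1 t)
      simpa using this
  intro i hi
  exact key (Q.natDegree + 1) i (by omega) hi

/-- dividing by a product of monic linear factors -/
lemma coeff_dvd_of_prod_mul (a : R) (s : Finset R) (Q : R[X]) (j : ℕ)
    (h : ∀ i, j + s.card ≤ i → a ∣ ((∏ t ∈ s, (X - C t)) * Q).coeff i) :
    ∀ i, j ≤ i → a ∣ Q.coeff i := by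
  classical
  induction s using Finset.induction_on generalizing Q j with
  | empty => simpa using h
  | insert t s hts ih =>
    rw [Finset.card_insert_of_notMem hts] at h
    have h1 : ∀ i, (j + 1) + s.card ≤ i → a ∣ ((∏ t ∈ s, (X - C t)) * ((X - C t) * Q)).coeff i := by
      intro i hi
      have := h i (by omega)
      rw [Finset.prod_insert hts] at this
      convert this using 2
      ring
    exact coeff_dvd_of_X_sub_C_mul a t Q j (ih _ _ h1)

/-- if all coefficients of index `≥ #s` of `P` are divisible by `a` and `P` vanishes on `s`, then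
all values of `P` are divisible by `a` -/
lemma dvd_eval_of_roots [IsDomain R] (a : R) (P : R[X]) (s : Finset R)
    (hs : ∀ t ∈ s, P.eval t = 0) (h : ∀ i, s.card ≤ i → a ∣ P.coeff i) (x : R) :
    a ∣ P.eval x := by
  classical
  by_cases hP : P = 0
  · simp [hP]
  have hdvd : (∏ t ∈ s, (X - C t)) ∣ P := by
    have h1 : (s.val.map fun t => X - C t).prod ∣ P := by
      rw [Multiset.prod_X_sub_C_dvd_iff_le_roots hP]
      rw [Multiset.le_iff_subset s.nodup]
      intro t ht
      rw [mem_roots hP]
      exact hs t (by simpa using ht)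
    exact h1
  obtain ⟨Q, rfl⟩ := hdvd
  have h2 := coeff_dvd_of_prod_mul a s Q 0 (by simpa using h)
  rw [eval_mul]
  apply Dvd.dvd.mul_left
  rw [eval_eq_sum_range]
  apply Finset.dvd_sum
  intro i _
  exact Dvd.dvd.mul_right (h2 i (Nat.zero_le _)) _

variable [IsLocalRing R]

/-- an integer prime to `p` is a unit of `R` -/
lemma isUnit_natCast_of_not_dvd (p : ℕ) (hp : p.Prime) (hpR : (p : R) ∈ IsLocalRing.maximalIdeal R)
    (u : ℕ) (hu : ¬ p ∣ u) : IsUnit (u : R) := by
  have hc : Nat.Coprime u p := ((Nat.Prime.coprime_iff_not_dvd hp).2 hu).symm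
  have h1 : (Nat.gcdA u p : R) * u + (Nat.gcdB u p : R) * p = 1 := by
    have h := Nat.gcd_eq_gcd_ab u p
    rw [hc.gcd_eq_one] at h
    have h' := congrArg (fun z : ℤ => (z : R)) h
    push_cast at h'
    rw [h']
    ring
  by_contra hne
  have h2 : (u : R) ∈ IsLocalRing.maximalIdeal R := by
    rw [IsLocalRing.mem_maximalIdeal]; exact hne
  have h3 : (1 : R) ∈ IsLocalRing.maximalIdeal R := by
    rw [← h1]
    exact Ideal.add_mem _ (Ideal.mul_mem_left _ _ h2) (Ideal.mul_mem_left _ _ hpR)
  exact (Ideal.ne_top_iff_one _).1 (IsLocalRing.maximalIdeal.isMaximal R).ne_top h3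

/-- `m!` divides `p^m` in `R` -/
lemma factorial_dvd_pow (p : ℕ) (hp : p.Prime) (hpR : (p : R) ∈ IsLocalRing.maximalIdeal R)
    (m : ℕ) : ((m.factorial : ℕ) : R) ∣ (p : R) ^ m := by
  have := Fact.mk hp
  obtain ⟨e, u, hu, he⟩ := Nat.exists_eq_pow_mul_and_not_dvd (Nat.factorial_ne_zero m) p hp.ne_one
  have hle : e ≤ m := by
    have h1 : e = padicValNat p m.factorial := by
      rw [he, padicValNat.mul (pow_ne_zero _ hp.ne_zero) (by rintro rfl; simp at hu),
        padicValNat.prime_pow, padicValNat.eq_zero_of_not_dvd hu, add_zero]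
    have h2 := sub_one_mul_padicValNat_factorial (p := p) m
    have h3 : 1 * padicValNat p m.factorial ≤ (p - 1) * padicValNat p m.factorial :=
      Nat.mul_le_mul_right _ (by have := hp.two_le; omega)
    rw [h1]
    omega
  have hU := isUnit_natCast_of_not_dvd p hp hpR u hu
  rw [he]
  push_cast
  obtain ⟨v, hv⟩ := hU
  refine ⟨(v⁻¹ : Rˣ) * (p : R) ^ (m - e), ?_⟩
  calc (p : R) ^ m = (p : R) ^ e * (p : R) ^ (m - e) := by rw [← pow_add]; congr 1; omega
    _ = (p : R) ^ e * (u : R) * ((v⁻¹ : Rˣ) * (p : R) ^ (m - e)) := by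
      rw [← hv]
      have : (v : R) * (v⁻¹ : Rˣ) = 1 := by simp
      calc (p : R) ^ e * (p : R) ^ (m - e) = (p : R) ^ e * ((v : R) * (v⁻¹ : Rˣ)) * (p : R) ^ (m - e) := by
            rw [this, mul_one]
        _ = _ := by ring

/-- **Hansel's lemma**. -/
theorem hansel [IsDomain R] [CharZero R] (p : ℕ) (hp : p.Prime)
    (hpR : (p : R) ∈ IsLocalRing.maximalIdeal R)
    (hsep : ∀ x : R, (∀ k : ℕ, (p : R) ^ k ∣ x) → x = 0)
    (β c : ℕ → R)
    (hβ : ∀ n, β n = ∑ m ∈ range (n + 1), c m * (p : R) ^ (2 * m) * (n.choose m : R))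
    (hinf : {n : ℕ | β n = 0}.Infinite) : ∀ n, β n = 0 := by
  classical
  choose e he using fun m => factorial_dvd_pow (R := R) p hp hpR m
  intro n
  apply hsep
  intro k
  -- choose k zeros
  obtain ⟨Z, hZ, hZc⟩ := hinf.exists_subset_card_eq k
  -- bound
  obtain ⟨M, hM⟩ : ∃ M, n ≤ M ∧ ∀ z ∈ Z, z ≤ M := by
    refine ⟨max n (Z.sup id), le_max_left _ _, fun z hz => le_max_of_le_right ?_⟩
    exact Finset.le_sup (f := id) hz
  let P : R[X] := ∑ m ∈ range (M + 1), C (c m * (p : R) ^ m * e m) * descPochhammer R m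
  have hcoeff : ∀ i, (p : R) ^ i ∣ P.coeff i := by
    intro i
    simp only [P, finsetSum_coeff, coeff_C_mul]
    apply Finset.dvd_sum
    intro m _
    by_cases hmi : i ≤ m
    · apply Dvd.dvd.mul_right
      apply Dvd.dvd.mul_right
      apply Dvd.dvd.mul_left
      exact pow_dvd_pow _ hmi
    · rw [coeff_eq_zero_of_natDegree_lt (by
        have := descPochhammer_natDegree (R := R) m
        omega)]
      simp
  have heval : ∀ x : ℕ, x ≤ M → P.eval (x : R) = β x := by
    intro x hx
    simp only [P, eval_finsetSum, eval_mul, eval_C]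
    rw [hβ x]
    have hsub : range (x + 1) ⊆ range (M + 1) := by
      intro y hy; simp only [Finset.mem_range] at hy ⊢; omega
    rw [← Finset.sum_subset hsub]
    · apply Finset.sum_congr rfl
      intro m _
      rw [descPochhammer_eval_eq_descFactorial, Nat.descFactorial_eq_factorial_mul_choose]
      push_cast
      have := he m
      calc c m * (p : R) ^ m * e m * ((m.factorial : R) * (x.choose m : R))
          = c m * (p : R) ^ m * ((m.factorial : R) * e m) * (x.choose m : R) := by ring
        _ = c m * (p : R) ^ m * (p : R) ^ m * (x.choose m : R) := by rw [← this]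
        _ = _ := by ring
    · intro m hm hm'
      simp only [Finset.mem_range] at hm hm'
      rw [descPochhammer_eval_eq_descFactorial, Nat.descFactorial_of_lt (by omega)]
      simp
  rw [← heval n hM.1]
  have hcard : (Z.image (fun z : ℕ => (z : R))).card = k := by
    rw [Finset.card_image_of_injective _ Nat.cast_injective, hZc]
  apply dvd_eval_of_roots _ _ (Z.image (fun z : ℕ => (z : R)))
  · intro t ht
    simp only [Finset.mem_image] at ht
    obtain ⟨z, hz, rfl⟩ := ht
    rw [heval z (hM.2 z hz)]
    exact hZ hz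
  · intro i hi
    rw [hcard] at hi
    exact (pow_dvd_pow _ hi).trans (hcoeff i)

end Hansel

end Pool.Agent.Helper37
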