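import Mathlib
import Pool.Agent.Helper37.Hansel

/-!
# The `p`-adic engine for return sets of polynomial maps with unit Jacobian along an orbit
-/

set_option autoImplicit false

open MvPolynomial Finset

namespace Pool.Agent.Helper37

section Basic

variable {R : Type*} [CommRing R] {σ : Type*}

/-- one step of the polynomial self-map `F` of affine space, over an `R`-algebra `S` -/
noncomputable def step (F : σ → MvPolynomial σ R) {S : Type*} [CommRing S] [Algebra R S]
    (x : σ → S) : σ → S := fun i => aeval x (F i)

lemma step_map (F : σ → MvPolynomial σ R) {S S' : Type*} [CommRing S] [Algebra R S]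
    [CommRing S'] [Algebra R S'] (φ : S →ₐ[R] S') (x : σ → S) :
    step F (fun i => φ (x i)) = fun i => φ (step F x i) := by
  funext i
  simp only [step]
  rw [← MvPolynomial.comp_aeval_apply]

lemma step_iterate_map (F : σ → MvPolynomial σ R) {S S' : Type*} [CommRing S] [Algebra R S]
    [CommRing S'] [Algebra R S'] (φ : S →ₐ[R] S') (n : ℕ) (x : σ → S) :
    (step F)^[n] (fun i => φ (x i)) = fun i => φ ((step F)^[n] x i) := by
  induction n generalizing x with
  | zero => rfl
  | succ n ih =>
    rw [Function.iterate_succ_apply, Function.iterate_succ_apply, step_map, ih]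

/-- first order Taylor expansion -/
lemma taylor [Fintype σ] {S : Type*} [CommRing S] [Algebra R S] (q : S) (a w : σ → S)
    (P : MvPolynomial σ R) :
    ∃ r : S, aeval (fun i => a i + q * w i) P
      = aeval a P + q * (∑ j, aeval a (pderiv j P) * w j) + q ^ 2 * r := by
  classical
  induction P using MvPolynomial.induction_on with
  | C c => exact ⟨0, by simp⟩
  | add P Q hP hQ =>
    obtain ⟨r, hr⟩ := hP
    obtain ⟨s, hs⟩ := hQ
    refine ⟨r + s, ?_⟩
    rw [map_add, hr, hs, map_add]
    simp only [map_add, add_mul, Finset.sum_add_distrib]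
    ring
  | mul_X P i hP =>
    obtain ⟨r, hr⟩ := hP
    refine ⟨r * a i + (∑ j, aeval a (pderiv j P) * w j) * w i + q * r * w i, ?_⟩
    rw [map_mul, hr, aeval_X, map_mul, aeval_X]
    have h1 : ∑ j, aeval a (pderiv j (P * X i)) * w j
        = (∑ j, aeval a (pderiv j P) * w j) * a i + aeval a P * w i := by
      have h2 : ∀ j, aeval a (pderiv j (P * X i)) * w j
          = aeval a (pderiv j P) * w j * a i + aeval a P * (if j = i then w i else 0) := by
        intro j
        rw [Derivation.leibniz, pderiv_X]
        by_cases hji : j = i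
        · subst hji
          simp
          ring
        · rw [Pi.single_eq_of_ne (Ne.symm hji)]
          simp [hji]
          ring
      simp only [h2, Finset.sum_add_distrib, ← Finset.sum_mul, ← Finset.mul_sum]
      simp
    rw [h1]
    ring

/-- the Jacobian matrix of the polynomial map `F` at `x` -/
noncomputable def jac (F : σ → MvPolynomial σ R) (x : σ → R) : Matrix σ σ R :=
  Matrix.of fun i j => eval x (pderiv j (F i))

end Basic

section Orbit

variable {R : Type*} [CommRing R] {σ : Type*} [Fintype σ] [DecidableEq σ]

/-- Jacobian of the `n`-th iterate at `x` (as a product of Jacobians along the orbit) -/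
noncomputable def jprod (F : σ → MvPolynomial σ R) (x : σ → R) : ℕ → Matrix σ σ R
  | 0 => 1
  | n + 1 => jac F ((step F)^[n] x) * jprod F x n

lemma jprod_add (F : σ → MvPolynomial σ R) (x : σ → R) (n k : ℕ) :
    jprod F x (n + k) = jprod F ((step F)^[n] x) k * jprod F x n := by
  induction k with
  | zero => simp [jprod]
  | succ k ih =>
    rw [← add_assoc]
    simp only [jprod]
    rw [ih, ← Function.iterate_add_apply, add_comm n k, Matrix.mul_assoc]

lemma isUnit_det_jprod (F : σ → MvPolynomial σ R) (x : σ → R)
    (h : ∀ n, IsUnit (jac F ((step F)^[n] x)).det) (n : ℕ) : IsUnit (jprod F x n).det := by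
  induction n with
  | zero => simp [jprod]
  | succ n ih => simp only [jprod]; rw [Matrix.det_mul]; exact (h n).mul ih

/-- Taylor expansion of iterates at the generic point of a residue polydisc -/
lemma iterate_taylor (F : σ → MvPolynomial σ R) (a : σ → R) (q : R) (n : ℕ) :
    ∃ r : σ → MvPolynomial σ R,
      (step F)^[n] (fun i => (C (a i) + C q * X i : MvPolynomial σ R))
        = fun i => C ((step F)^[n] a i) + C q * (∑ j, C (jprod F a n i j) * X j)
            + C q ^ 2 * r i := by
  induction n with
  | zero =>
    refine ⟨0, ?_⟩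
    funext i
    simp [jprod, Matrix.one_apply]
  | succ n ih =>
    obtain ⟨r, hr⟩ := ih
    set b := (step F)^[n] a with hb
    set w : σ → MvPolynomial σ R := fun i => (∑ j, C (jprod F a n i j) * X j) + C q * r i with hw
    have h1 : (step F)^[n] (fun i => (C (a i) + C q * X i : MvPolynomial σ R))
        = fun i => C (b i) + C q * w i := by
      rw [hr]; funext i; simp only [hw]; ring
    have h2 : ∀ i, ∃ s : MvPolynomial σ R, aeval (fun i => (C (b i) + C q * w i)) (F i)
        = C (eval b (F i)) + C q * (∑ j, C (eval b (pderiv j (F i))) * w j) + C q ^ 2 * s := by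
      intro i
      obtain ⟨s, hs⟩ := taylor (R := R) (C q : MvPolynomial σ R) (fun i => C (b i)) w (F i)
      refine ⟨s, ?_⟩
      rw [hs]
      have h3 : ∀ P : MvPolynomial σ R, aeval (fun i => (C (b i) : MvPolynomial σ R)) P
          = C (eval b P) := by
        intro P
        have := MvPolynomial.aeval_algebraMap_apply (MvPolynomial σ R) b P
        simpa [MvPolynomial.algebraMap_eq, MvPolynomial.coe_aeval_eq_eval, Function.comp_def] using this
      simp only [h3]
    choose s hs using h2
    refine ⟨fun i => (∑ j, C (eval b (pderiv j (F i))) * r j) + s i, ?_⟩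
    rw [Function.iterate_succ_apply', h1]
    funext i
    simp only [step]
    rw [hs i]
    have h4 : (step F)^[n + 1] a i = eval b (F i) := by
      rw [Function.iterate_succ_apply', ← hb]
      simp [step]
    rw [h4]
    have h5 : (∑ j, C (eval b (pderiv j (F i))) * w j : MvPolynomial σ R)
        = (∑ j, C (jprod F a (n + 1) i j) * X j)
          + C q * (∑ j, C (eval b (pderiv j (F i))) * r j) := by
      simp only [hw, mul_add, Finset.sum_add_distrib]
      congr 1
      · simp only [jprod, Matrix.mul_apply, jac, Matrix.of_apply, map_sum, map_mul, Finset.sum_mul,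
          Finset.mul_sum]
        rw [Finset.sum_comm]
        refine Finset.sum_congr rfl fun j _ => Finset.sum_congr rfl fun k _ => ?_
        rw [hb]; ring
      · rw [Finset.mul_sum]
        refine Finset.sum_congr rfl fun j _ => by ring
    rw [h5]
    ring

/-- Periodicity of residues and Jacobians along the orbit: after some time `n₀`, a suitable iterate
`F^k` is congruent to the identity modulo `q` on the residue polydisc of `b = F^{n₀}(a)`. -/
lemma exists_return (F : σ → MvPolynomial σ R) (a : σ → R) (q : R)
    [Finite (R ⧸ Ideal.span {q ^ 2})] [Finite (R ⧸ Ideal.span {q})]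
    (h : ∀ n, IsUnit (jac F ((step F)^[n] a)).det) :
    ∃ n₀ k, 0 < k ∧ ∃ r : σ → MvPolynomial σ R,
      (step F)^[k] (fun i => (C ((step F)^[n₀] a i) + C q * X i : MvPolynomial σ R))
        = fun i => C ((step F)^[n₀] a i) + C q * (X i + C q * r i) := by
  classical
  let st : ℕ → (σ → R ⧸ Ideal.span {q ^ 2}) × (Matrix σ σ (R ⧸ Ideal.span {q})) := fun n =>
    (fun i => Ideal.Quotient.mk _ ((step F)^[n] a i), (jprod F a n).map (Ideal.Quotient.mk _))
  obtain ⟨n, n', hne, heq⟩ := Finite.exists_ne_map_eq_of_infinite st
  wlog hlt : n < n' generalizing n n'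
  · exact this n' n hne.symm heq.symm (by omega)
  obtain ⟨k, rfl⟩ : ∃ k, n' = n + k := ⟨n' - n, by omega⟩
  refine ⟨n, k, by omega, ?_⟩
  set b := (step F)^[n] a with hb
  obtain ⟨r, hr⟩ := iterate_taylor F b q k
  have hst1 : ∀ i, q ^ 2 ∣ (step F)^[k] b i - b i := by
    intro i
    have h1 := congrFun (congrArg Prod.fst heq) i
    simp only [st] at h1
    rw [Ideal.Quotient.eq, Ideal.mem_span_singleton] at h1
    rw [add_comm n k, Function.iterate_add_apply, ← hb] at h1
    rw [← neg_sub]
    exact (dvd_neg).2 h1
  have hst2 : ∀ i j, q ∣ (jprod F a (n + k) - jprod F a n) i j := by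
    intro i j
    have h1 := congrFun (congrFun (congrArg Prod.snd heq) i) j
    simp only [st, Matrix.map_apply] at h1
    rw [Ideal.Quotient.eq, Ideal.mem_span_singleton] at h1
    rw [Matrix.sub_apply, ← neg_sub]
    exact (dvd_neg).2 h1
  have hst3 : ∀ i j, q ∣ (jprod F b k - 1) i j := by
    intro i j
    have hu := isUnit_det_jprod F a h n
    have h2 : (jprod F b k - 1) = (jprod F a (n + k) - jprod F a n) * (jprod F a n)⁻¹ := by
      rw [jprod_add, ← hb]
      have : jprod F b k * jprod F a n - jprod F a n = (jprod F b k - 1) * jprod F a n := by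
        rw [Matrix.sub_mul, Matrix.one_mul]
      rw [this, Matrix.mul_assoc, Matrix.mul_nonsing_inv _ hu, Matrix.mul_one]
    rw [h2, Matrix.mul_apply]
    apply Finset.dvd_sum
    intro l _
    exact Dvd.dvd.mul_right (hst2 i l) _
  choose c hc using hst1
  choose e he using hst3
  refine ⟨fun i => C (c i) + (∑ j, C (e i j) * X j) + r i, ?_⟩
  rw [hr]
  funext i
  have h1 : (step F)^[k] b i = b i + q ^ 2 * c i := by rw [← hc i]; ring
  have h2 : ∀ j, jprod F b k i j = (1 : Matrix σ σ R) i j + q * e i j := by
    intro j; rw [← he i j, Matrix.sub_apply]; ring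
  rw [h1]
  simp only [h2, map_add, map_mul, add_mul, Finset.sum_add_distrib]
  have h3 : (∑ j, C ((1 : Matrix σ σ R) i j) * X j : MvPolynomial σ R) = X i := by
    simp [Matrix.one_apply]
  have h4 : (∑ j, C q * C (e i j) * X j : MvPolynomial σ R) = C q * ∑ j, C (e i j) * X j := by
    rw [Finset.mul_sum]; exact Finset.sum_congr rfl fun j _ => by ring
  rw [h3, h4, map_pow]
  ring

end Orbit

section Mahler

variable {R : Type*} [CommRing R] {σ : Type*}

lemma dvd_aeval_sub (q : R) (r : σ → MvPolynomial σ R) (P : MvPolynomial σ R) :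
    (C q : MvPolynomial σ R) ∣ aeval (fun i => (X i + C q * r i : MvPolynomial σ R)) P - P := by
  induction P using MvPolynomial.induction_on with
  | C c => simp [MvPolynomial.algebraMap_eq]
  | add P Q hP hQ =>
    have := dvd_add hP hQ
    rw [map_add]
    convert this using 1
    ring
  | mul_X P i hP =>
    obtain ⟨s, hs⟩ := hP
    refine ⟨s * X i + (P + C q * s) * r i, ?_⟩
    rw [map_mul, aeval_X]
    have : aeval (fun i => (X i + C q * r i : MvPolynomial σ R)) P = P + C q * s := by
      rw [← hs]; ring
    rw [this]
    ring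

/-- Mahler expansion of a polynomial along the orbit of a map congruent to the identity. -/
lemma exists_mahler (q : R) (r : σ → MvPolynomial σ R) (u : ℕ → σ → R)
    (hu : ∀ s, u (s + 1) = fun i => eval (u s) (X i + C q * r i)) (g : MvPolynomial σ R) :
    ∃ c : ℕ → R, ∀ n, eval (u n) g = ∑ m ∈ range (n + 1), c m * q ^ m * (n.choose m : R) := by
  let T : Module.End R (MvPolynomial σ R) :=
    (aeval (fun i => (X i + C q * r i : MvPolynomial σ R))).toLinearMap
  let D : Module.End R (MvPolynomial σ R) := T - 1
  have hD : ∀ m P, (C q : MvPolynomial σ R) ^ m ∣ (D ^ m) P := by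
    intro m
    induction m with
    | zero => intro P; simp
    | succ m ih =>
      intro P
      rw [pow_succ' D m, pow_succ' (C q : MvPolynomial σ R) m]
      change _ ∣ D ((D ^ m) P)
      obtain ⟨s, hs⟩ := ih P
      rw [hs]
      have h1 : D (C q ^ m * s) = C q ^ m * D s := by
        simp only [D, T, LinearMap.sub_apply, Module.End.one_apply, AlgHom.toLinearMap_apply,
          map_mul, map_pow]
        have : aeval (fun i => (X i + C q * r i : MvPolynomial σ R)) (C q : MvPolynomial σ R) = C q := by
          simp [MvPolynomial.algebraMap_eq]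
        rw [this]; ring
      rw [h1, mul_comm (C q) (C q ^ m)]
      exact mul_dvd_mul_left _ (dvd_aeval_sub q r s)
  have hT : ∀ n P, eval (u n) P = eval (u 0) ((T ^ n) P) := by
    intro n
    induction n with
    | zero => intro P; simp
    | succ n ih =>
      intro P
      rw [pow_succ]
      change _ = eval (u 0) ((T ^ n) (T P))
      rw [← ih (T P), hu n]
      have h := MvPolynomial.comp_aeval_apply (R := R)
        (f := fun i => (X i + C q * r i : MvPolynomial σ R))
        (aeval (u n) : MvPolynomial σ R →ₐ[R] R) P
      simp only [MvPolynomial.aeval_eq_eval] at h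
      simp only [T, AlgHom.toLinearMap_apply]
      exact h.symm
  choose c hc using fun m => hD m g
  refine ⟨fun m => eval (u 0) (c m), fun n => ?_⟩
  rw [hT n g]
  have h1 : T = D + 1 := by simp [D]
  rw [h1, (Commute.one_right D).add_pow]
  simp only [LinearMap.sum_apply, map_sum, one_pow, mul_one]
  refine Finset.sum_congr rfl fun m _ => ?_
  have h2 : (D ^ m * ((n.choose m : ℕ) : Module.End R (MvPolynomial σ R))) g
      = (n.choose m : MvPolynomial σ R) * ((D ^ m) g) := by
    change (D ^ m) (((n.choose m : ℕ) : Module.End R (MvPolynomial σ R)) g) = _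
    rw [Module.End.natCast_apply, map_nsmul, nsmul_eq_mul]
  rw [h2, hc m]
  simp
  ring

end Mahler

end Pool.Agent.Helper37
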