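import Mathlib
import Pool.Agent.Helper37.Engine

/-!
# The `d`-th power map of `ℤ[t]/(f)` as a tuple of integral forms
-/

set_option autoImplicit false

open Polynomial

namespace Pool.Agent.Helper37

/-- value of an integral polynomial at a tuple of elements of a commutative ring -/
noncomputable def ev {σ S : Type*} [CommRing S] (x : σ → S) (P : MvPolynomial σ ℤ) : S :=
  MvPolynomial.eval₂ (Int.castRingHom S) x P

lemma aeval_eq_ev {σ S : Type*} [CommRing S] [Algebra ℤ S] (x : σ → S) (P : MvPolynomial σ ℤ) :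
    MvPolynomial.aeval x P = ev x P := by
  rw [MvPolynomial.aeval_def, ev]
  congr 1
  exact RingHom.ext_int _ _

lemma eval_map_eq_ev {σ S : Type*} [CommRing S] (x : σ → S) (P : MvPolynomial σ ℤ) :
    MvPolynomial.eval x (MvPolynomial.map (Int.castRingHom S) P) = ev x P := by
  rw [MvPolynomial.eval_map, ev]

lemma map_ev {σ S S' : Type*} [CommRing S] [CommRing S'] (φ : S →+* S') (x : σ → S)
    (P : MvPolynomial σ ℤ) : φ (ev x P) = ev (fun i => φ (x i)) P := by
  rw [ev, ev, ← MvPolynomial.coe_eval₂Hom, ← RingHom.comp_apply, MvPolynomial.comp_eval₂Hom,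
    MvPolynomial.coe_eval₂Hom]
  congr 1
  exact RingHom.ext_int _ _

/-- the polynomial `∑ x_j t^j` -/
noncomputable def lin {m : ℕ} {S : Type*} [CommRing S] (x : Fin m → S) : S[X] :=
  ∑ j : Fin m, C (x j) * X ^ (j : ℕ)

/-- coordinates of the `d`-th power of the generic element of `ℤ[t]/(f)` -/
noncomputable def powForm (m : ℕ) (f : ℤ[X]) (d : ℕ) (i : Fin m) : MvPolynomial (Fin m) ℤ :=
  ∑ g : Fin d → Fin m,
    MvPolynomial.C (((X : ℤ[X]) ^ (∑ l, (g l : ℕ)) %ₘ f).coeff i) * ∏ l, MvPolynomial.X (g l)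

lemma powForm_isHomogeneous (m : ℕ) (f : ℤ[X]) (d : ℕ) (i : Fin m) :
    (powForm m f d i).IsHomogeneous d := by
  apply MvPolynomial.IsHomogeneous.sum
  intro g _
  have h1 := MvPolynomial.isHomogeneous_C (Fin m) (((X : ℤ[X]) ^ (∑ l, (g l : ℕ)) %ₘ f).coeff i)
  have h2 := MvPolynomial.IsHomogeneous.prod (Finset.univ : Finset (Fin d))
    (fun l => (MvPolynomial.X (g l) : MvPolynomial (Fin m) ℤ)) (fun _ => 1)
    (fun l _ => MvPolynomial.isHomogeneous_X ℤ (g l))
  have h3 := h1.mul h2
  simpa using h3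

lemma lin_coeff {m : ℕ} {S : Type*} [CommRing S] (x : Fin m → S) (i : Fin m) :
    (lin x).coeff i = x i := by
  simp only [lin, finsetSum_coeff, coeff_C_mul, coeff_X_pow]
  rw [Finset.sum_eq_single i]
  · simp
  · intro j _ hj
    rw [if_neg (fun h => hj (Fin.ext h.symm)), mul_zero]
  · simp

lemma lin_coeff_ge {m : ℕ} {S : Type*} [CommRing S] (x : Fin m → S) (i : ℕ) (hi : m ≤ i) :
    (lin x).coeff i = 0 := by
  simp only [lin, finsetSum_coeff, coeff_C_mul, coeff_X_pow]
  apply Finset.sum_eq_zero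
  intro j _
  rw [if_neg (by have := j.2; omega), mul_zero]

lemma lin_eq_zero {m : ℕ} {S : Type*} [CommRing S] (x : Fin m → S) (h : lin x = 0) : x = 0 := by
  funext i
  rw [← lin_coeff x i, h]; simp

lemma lin_degree_lt {m : ℕ} {S : Type*} [CommRing S] (x : Fin m → S) :
    (lin x).degree < m := by
  rw [degree_lt_iff_coeff_zero]
  intro i hi
  exact lin_coeff_ge x i hi

lemma ev_powForm {m : ℕ} (f : ℤ[X]) (hf : f.Monic) (d : ℕ) {S : Type*} [CommRing S]
    (x : Fin m → S) (i : Fin m) :
    ev x (powForm m f d i)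
      = ((lin x) ^ d %ₘ (f.map (Int.castRingHom S))).coeff i := by
  classical
  rw [← aeval_eq_ev]
  set fS := f.map (Int.castRingHom S) with hfS
  have h1 : (lin x) ^ d = ∑ g : Fin d → Fin m, (∏ l, x (g l)) • (X : S[X]) ^ (∑ l, (g l : ℕ)) := by
    have h2 : (lin x) ^ d = ∏ _l : Fin d, lin x := by simp
    rw [h2]
    simp only [lin]
    rw [Finset.prod_univ_sum]
    simp only [Fintype.piFinset_univ]
    refine Finset.sum_congr rfl fun g _ => ?_
    rw [Finset.prod_mul_distrib, ← map_prod, Finset.prod_pow_eq_pow_sum, smul_eq_C_mul]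
  have h3 : (lin x) ^ d %ₘ fS
      = ∑ g : Fin d → Fin m, (∏ l, x (g l)) • ((X : S[X]) ^ (∑ l, (g l : ℕ)) %ₘ fS) := by
    rw [h1]
    have := map_sum (modByMonicHom fS)
      (fun g : Fin d → Fin m => (∏ l, x (g l)) • (X : S[X]) ^ (∑ l, (g l : ℕ))) Finset.univ
    simp only [map_smul] at this
    exact this
  rw [h3]
  simp only [powForm, map_sum, map_mul, map_prod, MvPolynomial.aeval_X, finsetSum_coeff, coeff_smul,
    smul_eq_mul]
  refine Finset.sum_congr rfl fun g _ => ?_
  have h4 : ((X : S[X]) ^ (∑ l, (g l : ℕ)) %ₘ fS)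
      = ((X : ℤ[X]) ^ (∑ l, (g l : ℕ)) %ₘ f).map (Int.castRingHom S) := by
    rw [map_modByMonic _ hf, Polynomial.map_pow, map_X]
  rw [h4, coeff_map, mul_comm]
  congr 1
  simp

/-- vanishing criterion: if the reduction of `f` is squarefree, the power map has only the trivial
zero. -/
lemma powForm_zero {m : ℕ} (f : ℤ[X]) (hf : f.Monic) (hfm : f.natDegree = m) (d : ℕ) (hd : d ≠ 0)
    {k : Type*} [Field k] (hsq : Squarefree (f.map (Int.castRingHom k)))
    (x : Fin m → k) (hx : ∀ i, ev x (powForm m f d i) = 0) : x = 0 := by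
  set fk := f.map (Int.castRingHom k) with hfk
  have hmon : fk.Monic := hf.map _
  have hdeg : fk.degree = m := by
    rw [degree_eq_natDegree hmon.ne_zero, hfk, hf.natDegree_map, hfm]
  have h1 : (lin x) ^ d %ₘ fk = 0 := by
    ext i
    rw [coeff_zero]
    by_cases hi : i < m
    · have := hx ⟨i, hi⟩
      rwa [ev_powForm f hf d x ⟨i, hi⟩] at this
    · apply coeff_eq_zero_of_degree_lt
      refine lt_of_lt_of_le (degree_modByMonic_lt _ hmon) ?_
      rw [hdeg]
      exact_mod_cast (not_lt.1 hi)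
  rw [modByMonic_eq_zero_iff_dvd hmon] at h1
  have h2 := (hsq.dvd_pow_iff_dvd hd).1 h1
  apply lin_eq_zero
  by_contra hne
  have h3 := degree_le_of_dvd h2 hne
  rw [hdeg] at h3
  exact absurd (lin_degree_lt x) (not_lt.2 h3)

lemma add_eps_pow {A : Type*} [CommRing A] (a b e : A) (he : e * e = 0) (d : ℕ) :
    (a + e * b) ^ d = a ^ d + e * ((d : A) * a ^ (d - 1) * b) := by
  induction d with
  | zero => simp
  | succ d ih =>
    rw [pow_succ, ih]
    rcases Nat.eq_zero_or_pos d with rfl | hd
    · simp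
    · have h1 : a ^ d = a ^ (d - 1) * a := by
        rw [← pow_succ]; congr 1; omega
      have h2 : d + 1 - 1 = d := by omega
      rw [h2, pow_succ, h1]
      push_cast
      linear_combination ((d : A) * a ^ (d - 1) * b * b) * he

/-- derivative of the power map via dual numbers -/
lemma deriv_powForm {m : ℕ} (f : ℤ[X]) (hf : f.Monic) (d : ℕ) {k : Type*} [CommRing k]
    (x v : Fin m → k) (i : Fin m) :
    ∑ j, ev x (MvPolynomial.pderiv j (powForm m f d i)) * v j
      = (((d : k[X]) * (lin x) ^ (d - 1) * lin v) %ₘ (f.map (Int.castRingHom k))).coeff i := by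
  let ι : k →+* DualNumber k := TrivSqZeroExt.inlHom k k
  let e : DualNumber k := DualNumber.eps
  have hee : e * e = 0 := DualNumber.eps_mul_eps
  obtain ⟨r, hr⟩ := taylor (R := ℤ) e (fun i => ι (x i)) (fun i => ι (v i)) (powForm m f d i)
  simp only [aeval_eq_ev] at hr
  rw [ev_powForm f hf] at hr
  simp only [← map_ev] at hr
  have hlin : lin (fun i => ι (x i) + e * ι (v i)) = (lin x).map ι + C e * (lin v).map ι := by
    simp only [lin, Polynomial.map_sum, Polynomial.map_mul, map_C, Polynomial.map_pow, map_X,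
      Finset.mul_sum]
    rw [← Finset.sum_add_distrib]
    refine Finset.sum_congr rfl fun j _ => ?_
    rw [C_add, C_mul]
    ring
  have hpow : (lin (fun i => ι (x i) + e * ι (v i))) ^ d
      = ((lin x) ^ d).map ι + C e * (((d : k[X]) * (lin x) ^ (d - 1) * lin v).map ι) := by
    rw [hlin, add_eps_pow _ _ _ (by rw [← C_mul, hee, C_0])]
    simp
  have hfk : f.map (Int.castRingHom (DualNumber k)) = (f.map (Int.castRingHom k)).map ι := by
    rw [Polynomial.map_map]
    congr 1
  have hmon : (f.map (Int.castRingHom k)).Monic := hf.map _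
  rw [hpow, hfk, ← smul_eq_C_mul, add_modByMonic, smul_modByMonic, ← map_modByMonic _ hmon,
    ← map_modByMonic _ hmon, coeff_add, coeff_smul, coeff_map, coeff_map] at hr
  have h1 := congrArg TrivSqZeroExt.snd hr
  have h2 : ∀ c : k, TrivSqZeroExt.snd (e * ι c) = c := by
    intro c
    simp [e, ι]
  have h3 : (∑ j, ι (ev x (MvPolynomial.pderiv j (powForm m f d i))) * ι (v j))
      = ι (∑ j, ev x (MvPolynomial.pderiv j (powForm m f d i)) * v j) := by
    rw [map_sum]
    exact Finset.sum_congr rfl fun j _ => (map_mul ι _ _).symm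
  rw [h3, pow_two, hee, zero_mul, add_zero, smul_eq_mul] at h1
  simp only [TrivSqZeroExt.snd_add, h2] at h1
  have h4 : ∀ c : k, TrivSqZeroExt.snd (ι c) = 0 := by
    intro c; simp [ι]
  rw [h4, h4, zero_add, zero_add] at h1
  exact h1.symm

/-- if the reduction of `f` is irreducible and `d` is invertible, the power map has injective
derivative at every non-zero point -/
lemma powForm_jac {m : ℕ} (f : ℤ[X]) (hf : f.Monic) (hfm : f.natDegree = m) (d : ℕ)
    {k : Type*} [Field k] (hd : (d : k) ≠ 0) (hirr : Irreducible (f.map (Int.castRingHom k)))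
    (x v : Fin m → k) (hx : x ≠ 0)
    (h : ∀ i, ∑ j, ev x (MvPolynomial.pderiv j (powForm m f d i)) * v j = 0) :
    v = 0 := by
  set fk := f.map (Int.castRingHom k) with hfk
  have hmon : fk.Monic := hf.map _
  have hdeg : fk.degree = m := by
    rw [degree_eq_natDegree hmon.ne_zero, hfk, hf.natDegree_map, hfm]
  have h1 : ((d : k[X]) * (lin x) ^ (d - 1) * lin v) %ₘ fk = 0 := by
    ext i
    rw [coeff_zero]
    by_cases hi : i < m
    · have := h ⟨i, hi⟩
      rwa [deriv_powForm f hf d x v ⟨i, hi⟩] at this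
    · apply coeff_eq_zero_of_degree_lt
      refine lt_of_lt_of_le (degree_modByMonic_lt _ hmon) ?_
      rw [hdeg]
      exact_mod_cast (not_lt.1 hi)
  rw [modByMonic_eq_zero_iff_dvd hmon] at h1
  have hprime : Prime fk := hirr.prime
  have hnd : ∀ y : Fin m → k, fk ∣ lin y → y = 0 := by
    intro y hy
    apply lin_eq_zero
    by_contra hne
    have h3 := degree_le_of_dvd hy hne
    rw [hdeg] at h3
    exact absurd (lin_degree_lt y) (not_lt.2 h3)
  rcases hprime.dvd_or_dvd h1 with h2 | h2
  · rcases hprime.dvd_or_dvd h2 with h3 | h3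
    · exfalso
      have hu : IsUnit (d : k[X]) := by
        have : (d : k[X]) = C (d : k) := by simp
        rw [this, isUnit_C]
        exact isUnit_iff_ne_zero.2 hd
      exact hprime.not_isUnit (isUnit_of_dvd_unit h3 hu)
    · exact absurd (hnd x (hprime.dvd_of_dvd_pow h3)) hx
  · exact hnd v h2

end Pool.Agent.Helper37
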