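import Mathlib
import Pool.Agent.Helper37.Engine

set_option autoImplicit false

open MvPolynomial Finset

namespace Pool.Agent.Helper37

section Main

variable {R : Type*} [CommRing R] {σ : Type*} [Fintype σ] [DecidableEq σ]

/-- **The engine.**  If `F` has unit Jacobian along the orbit of `a`, then the orbit can be cut into
finitely many progressions on each of which every polynomial vanishes either everywhere or only
finitely often. -/
theorem finite_or_all [IsDomain R] [CharZero R] [IsLocalRing R] (p : ℕ) (hp : p.Prime)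
    (hpR : (p : R) ∈ IsLocalRing.maximalIdeal R)
    (hsep : ∀ x : R, (∀ k : ℕ, (p : R) ^ k ∣ x) → x = 0)
    [Finite (R ⧸ Ideal.span {((p : R) ^ 2) ^ 2})] [Finite (R ⧸ Ideal.span {(p : R) ^ 2})]
    (F : σ → MvPolynomial σ R) (a : σ → R)
    (h : ∀ n, IsUnit (jac F ((step F)^[n] a)).det) :
    ∃ n₀ k, 0 < k ∧ ∀ (G : MvPolynomial σ R) (m : ℕ), n₀ ≤ m →
      {s : ℕ | eval ((step F)^[m + k * s] a) G = 0}.Infinite →
      ∀ s, eval ((step F)^[m + k * s] a) G = 0 := by
  obtain ⟨n₀, k, hk, r, hr⟩ := exists_return F a ((p : R) ^ 2) h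
  refine ⟨n₀, k, hk, ?_⟩
  intro G m hm
  obtain ⟨m', rfl⟩ : ∃ m', m = n₀ + m' := ⟨m - n₀, by omega⟩
  set b := (step F)^[n₀] a with hb
  set q : R := (p : R) ^ 2 with hq
  let u : ℕ → σ → R := fun s => Nat.rec (0 : σ → R) (fun _ v i => eval v (X i + C q * r i)) s
  have hu : ∀ s, u (s + 1) = fun i => eval (u s) (X i + C q * r i) := fun s => rfl
  have hstep : ∀ n (v : σ → R), (step F)^[n] (fun i => b i + q * v i)
      = fun i => eval v ((step F)^[n] (fun i => (C (b i) + C q * X i : MvPolynomial σ R)) i) := by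
    intro n v
    have h1 := step_iterate_map F (aeval v : MvPolynomial σ R →ₐ[R] R) n
      (fun i => (C (b i) + C q * X i : MvPolynomial σ R))
    simp only [MvPolynomial.aeval_eq_eval] at h1
    have h2 : (fun i => b i + q * v i)
        = fun i => eval v (C (b i) + C q * X i : MvPolynomial σ R) := by
      funext i; simp
    rw [h2]
    exact h1
  have horb : ∀ s, (step F)^[k * s] b = fun i => b i + q * u s i := by
    intro s
    induction s with
    | zero => funext i; simp [u]
    | succ s ih =>
      rw [Nat.mul_succ, add_comm, Function.iterate_add_apply, ih, hstep k (u s), hr, hu s]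
      funext i
      simp
  set g : MvPolynomial σ R :=
    aeval ((step F)^[m'] (fun i => (C (b i) + C q * X i : MvPolynomial σ R))) G with hg
  have hval : ∀ s, eval ((step F)^[n₀ + m' + k * s] a) G = eval (u s) g := by
    intro s
    have h1 : (step F)^[n₀ + m' + k * s] a = (step F)^[m'] ((step F)^[k * s] b) := by
      rw [hb, ← Function.iterate_add_apply, ← Function.iterate_add_apply]
      congr 1
      ring
    rw [h1, horb s, hstep m' (u s), hg]
    have h2 := MvPolynomial.comp_aeval_apply (R := R)
        (f := (step F)^[m'] (fun i => (C (b i) + C q * X i : MvPolynomial σ R)))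
        (aeval (u s) : MvPolynomial σ R →ₐ[R] R) G
    simp only [MvPolynomial.aeval_eq_eval] at h2
    exact h2.symm
  intro hinf s
  obtain ⟨c, hc⟩ := exists_mahler q r u hu g
  rw [hval]
  refine hansel p hp hpR hsep (fun n => eval (u n) g) c ?_ ?_ s
  · intro n
    change eval (u n) g = _
    rw [hc n]
    refine Finset.sum_congr rfl fun m _ => ?_
    rw [hq, ← pow_mul]
  · refine hinf.mono ?_
    intro s hs
    simp only [Set.mem_ofPred_eq] at hs ⊢
    rw [← hval]; exact hs

/-- Extension of the engine to polynomials with coefficients in any extension field `L`. -/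
theorem finite_or_all_ext [IsDomain R] [CharZero R] [IsDiscreteValuationRing R] (p : ℕ)
    (hp : p.Prime)
    (hpR : (p : R) ∈ IsLocalRing.maximalIdeal R)
    [Finite (IsLocalRing.ResidueField R)]
    {L : Type*} [Field L] [Algebra R L] (hRL : Function.Injective (algebraMap R L))
    (F : σ → MvPolynomial σ R) (a : σ → R)
    (h : ∀ n, IsUnit (jac F ((step F)^[n] a)).det) :
    ∃ n₀ k, 0 < k ∧ ∀ (G : MvPolynomial σ L) (m : ℕ), n₀ ≤ m →
      {s : ℕ | eval (fun i => algebraMap R L ((step F)^[m + k * s] a i)) G = 0}.Infinite →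
      ∀ s, eval (fun i => algebraMap R L ((step F)^[m + k * s] a i)) G = 0 := by
  classical
  have hp0 : (p : R) ≠ 0 := by exact_mod_cast hp.ne_zero
  -- finiteness of the quotients
  have hfin : ∀ x : R, x ≠ 0 → Finite (R ⧸ Ideal.span {x}) := by
    intro x hx
    have hfg : (IsLocalRing.maximalIdeal R).FG := IsNoetherian.noetherian _
    have : Finite (R ⧸ IsLocalRing.maximalIdeal R) := ‹Finite (IsLocalRing.ResidueField R)›
    obtain ⟨ϖ, hϖ⟩ := IsDiscreteValuationRing.exists_irreducible R
    obtain ⟨n, hn⟩ := IsDiscreteValuationRing.associated_pow_irreducible hx hϖ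
    have h1 : Ideal.span {x} = IsLocalRing.maximalIdeal R ^ n := by
      rw [hϖ.maximalIdeal_eq, Ideal.span_singleton_pow]
      exact Ideal.span_singleton_eq_span_singleton.2 hn
    rw [h1]
    exact Ideal.finite_quotient_pow hfg n
  have := hfin (((p : R) ^ 2) ^ 2) (by positivity)
  have := hfin ((p : R) ^ 2) (by positivity)
  have hsep : ∀ x : R, (∀ k : ℕ, (p : R) ^ k ∣ x) → x = 0 := by
    intro x hx
    by_contra hne
    have h1 : (Ideal.span {(p : R)}) ≠ ⊤ := by
      intro htop
      rw [Ideal.span_singleton_eq_top] at htop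
      exact (IsLocalRing.mem_maximalIdeal _).1 hpR htop
    have h2 := Ideal.iInf_pow_eq_bot_of_isDomain (Ideal.span {(p : R)}) h1
    have h3 : x ∈ (⨅ i : ℕ, (Ideal.span {(p : R)}) ^ i) := by
      rw [Ideal.mem_iInf]
      intro i
      rw [Ideal.span_singleton_pow, Ideal.mem_span_singleton]
      exact hx i
    rw [h2] at h3
    exact hne (Ideal.mem_bot.1 h3)
  obtain ⟨n₀, k, hk, hmain⟩ := finite_or_all p hp hpR hsep F a h
  refine ⟨n₀, k, hk, ?_⟩
  intro G m hm hinf s
  -- the module generated by the coefficients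
  let M : Submodule R L := Submodule.span R (G.support.image (fun d => coeff d G) : Finset L)
  have : Module.Finite R M := Module.Finite.span_finset R _
  have : Module.IsTorsionFree R L := by
    exact Module.IsTorsionFree.of_smul_eq_zero (by
      intro r x hrx
      rw [Algebra.smul_def] at hrx
      rcases mul_eq_zero.1 hrx with h | h
      · left; exact hRL (by rw [h, map_zero])
      · right; exact h)
  have : Module.Free R M := Module.free_of_finite_type_torsion_free'
  let B := Module.Free.chooseBasis R M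
  have hmem : ∀ d, coeff d G ∈ M := by
    intro d
    by_cases hd : d ∈ G.support
    · exact Submodule.subset_span (by
        simp only [Finset.coe_image, Set.mem_image, Finset.mem_coe]
        exact ⟨d, hd, rfl⟩)
    · rw [MvPolynomial.notMem_support_iff.1 hd]; exact M.zero_mem
  let v : (σ → R) → M := fun x => ∑ d ∈ G.support, (∏ i, x i ^ d i) • (⟨coeff d G, hmem d⟩ : M)
  let Gj : Module.Free.ChooseBasisIndex R M → MvPolynomial σ R := fun j =>
    ∑ d ∈ G.support, monomial d (B.repr (⟨coeff d G, hmem d⟩ : M) j)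
  have hv : ∀ x : σ → R, ((v x : M) : L) = eval (fun i => algebraMap R L (x i)) G := by
    intro x
    rw [MvPolynomial.eval_eq']
    simp only [v, AddSubmonoidClass.coe_finsetSum, Submodule.coe_smul]
    refine Finset.sum_congr rfl fun d _ => ?_
    rw [Algebra.smul_def, mul_comm, map_prod]
    simp
  have hGj : ∀ (x : σ → R) j, eval x (Gj j) = B.repr (v x) j := by
    intro x j
    simp only [Gj, v, map_sum, map_smul, Finsupp.coe_finsetSum, Finset.sum_apply,
      Finsupp.smul_apply, smul_eq_mul]
    refine Finset.sum_congr rfl fun d _ => ?_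
    rw [MvPolynomial.eval_monomial, Finsupp.prod_fintype _ _ (by simp)]
    ring
  have hiff : ∀ x : σ → R, eval (fun i => algebraMap R L (x i)) G = 0 ↔ ∀ j, eval x (Gj j) = 0 := by
    intro x
    rw [← hv x]
    simp only [hGj]
    rw [ZeroMemClass.coe_eq_zero]
    constructor
    · intro h0 j; rw [h0]; simp
    · intro h0
      apply B.repr.injective
      ext j
      rw [h0 j]; simp
  rw [hiff]
  intro j
  refine hmain (Gj j) m hm ?_ s
  refine hinf.mono ?_
  intro s hs
  simp only [Set.mem_ofPred_eq] at hs ⊢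
  exact (hiff _).1 hs j

/-- Bookkeeping: a set of natural numbers which on each progression `m + k * s` (`m ≥ n₀`) is
finite or everything is a finite union of arithmetic progressions. -/
lemma exists_progressions (A : Set ℕ) (n₀ k : ℕ) (hk : 0 < k)
    (h : ∀ m, n₀ ≤ m → {s : ℕ | m + k * s ∈ A}.Infinite → ∀ s, m + k * s ∈ A) :
    ∃ T : Finset (ℕ × ℕ), A = {n : ℕ | ∃ p ∈ T, ∃ m : ℕ, n = p.1 * m + p.2} := by
  classical
  let B : Finset ℕ := (Finset.Ico n₀ (n₀ + k)).filter (fun m => ∀ s, m + k * s ∈ A)
  let U : Set ℕ := {n | ∃ m ∈ B, ∃ s, n = m + k * s}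
  have hfin : (A \ U).Finite := by
    have hsub : A \ U ⊆ (Set.Iio n₀) ∪ ⋃ m ∈ Finset.Ico n₀ (n₀ + k) \ B,
        (fun s => m + k * s) '' {s : ℕ | m + k * s ∈ A} := by
      intro n hn
      by_cases hn0 : n < n₀
      · left; exact hn0
      · right
        have h1 : n = (n₀ + (n - n₀) % k) + k * ((n - n₀) / k) := by
          have := Nat.mod_add_div (n - n₀) k
          omega
        have h2 : (n - n₀) % k < k := Nat.mod_lt _ hk
        simp only [Set.mem_iUnion]
        refine ⟨n₀ + (n - n₀) % k, ?_, ?_⟩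
        · simp only [Finset.mem_sdiff, Finset.mem_Ico]
          refine ⟨by omega, fun hB => hn.2 ?_⟩
          exact ⟨_, hB, _, h1⟩
        · refine ⟨(n - n₀) / k, ?_, h1.symm⟩
          simp only [Set.mem_ofPred_eq]
          rw [← h1]; exact hn.1
    refine Set.Finite.subset ?_ hsub
    refine (Set.finite_Iio n₀).union ?_
    refine Set.Finite.biUnion (Finset.finite_toSet _) ?_
    intro m hm
    apply Set.Finite.image
    by_contra hinf
    simp only [Finset.coe_sdiff, Set.mem_sdiff, Finset.mem_coe, Finset.mem_Ico] at hm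
    apply hm.2
    simp only [B, Finset.mem_filter, Finset.mem_Ico]
    exact ⟨hm.1, h m hm.1.1 hinf⟩
  refine ⟨B.image (fun m => (k, m)) ∪ hfin.toFinset.image (fun n => (0, n)), ?_⟩
  ext n
  simp only [Set.mem_ofPred_eq, Finset.mem_union, Finset.mem_image, Set.Finite.mem_toFinset]
  constructor
  · intro hn
    by_cases hU : n ∈ U
    · obtain ⟨m, hm, s, hs⟩ := hU
      exact ⟨(k, m), Or.inl ⟨m, hm, rfl⟩, s, by rw [hs]; ring⟩
    · exact ⟨(0, n), Or.inr ⟨n, ⟨hn, hU⟩, rfl⟩, 0, by simp⟩
  · rintro ⟨q, (⟨m, hm, rfl⟩ | ⟨n', hn', rfl⟩), s, hs⟩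
    · have := (Finset.mem_filter.1 hm).2 s
      rw [hs]
      simpa [add_comm] using this
    · rw [hs]
      simpa using hn'.1

/-- Return sets of orbits with unit Jacobians over a discrete valuation ring. -/
theorem returnSet_progressions [IsDomain R] [CharZero R] [IsDiscreteValuationRing R] (p : ℕ)
    (hp : p.Prime)
    (hpR : (p : R) ∈ IsLocalRing.maximalIdeal R)
    [Finite (IsLocalRing.ResidueField R)]
    {L : Type*} [Field L] [Algebra R L] (hRL : Function.Injective (algebraMap R L))
    (F : σ → MvPolynomial σ R) (a : σ → R)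
    (h : ∀ n, IsUnit (jac F ((step F)^[n] a)).det) (S : Set (MvPolynomial σ L)) :
    ∃ T : Finset (ℕ × ℕ),
      {n : ℕ | ∀ g ∈ S, eval (fun i => algebraMap R L ((step F)^[n] a i)) g = 0}
        = {n : ℕ | ∃ p ∈ T, ∃ m : ℕ, n = p.1 * m + p.2} := by
  obtain ⟨n₀, k, hk, hmain⟩ := finite_or_all_ext p hp hpR hRL F a h
  apply exists_progressions _ n₀ k hk
  intro m hm hinf s g hg
  refine hmain g m hm (hinf.mono ?_) s
  intro s hs
  exact hs g hg

end Main

end Pool.Agent.Helper37
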