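import Mathlib
import Pool.Agent.Helper37.ReturnSet
import Pool.Agent.Helper37.PowerForm
import Pool.Agent.Helper37.Irred

/-!
# Integral lifts of the power map modulo `p`
-/

set_option autoImplicit false

open MvPolynomial

namespace Pool.Agent.Helper37

lemma IsHomogeneous_aeval_smul {R S σ : Type*} [CommRing R] [CommRing S] [Algebra R S] [Fintype σ]
    {P : MvPolynomial σ R} {d : ℕ} (hP : P.IsHomogeneous d) (c : S) (y : σ → S) :
    aeval (fun i => c * y i) P = c ^ d * aeval y P := by
  rw [aeval_def, aeval_def, eval₂_eq', eval₂_eq', Finset.mul_sum]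
  refine Finset.sum_congr rfl fun m hm => ?_
  have h1 : ∑ i, m i = d := by
    have := hP (mem_support_iff.1 hm)
    rw [Finsupp.weight_apply, Finsupp.sum_fintype _ _ (by simp)] at this
    simpa using this
  have h2 : ∏ i, (c * y i) ^ m i = c ^ d * ∏ i, y i ^ m i := by
    simp only [mul_pow, Finset.prod_mul_distrib, Finset.prod_pow_eq_pow_sum, h1]
  rw [h2]
  ring

lemma iterate_smul {R S σ : Type*} [CommRing R] [CommRing S] [Algebra R S] [Fintype σ]
    {F : σ → MvPolynomial σ R} {d : ℕ} (hF : ∀ i, (F i).IsHomogeneous d) (c : S) (y : σ → S)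
    (n : ℕ) :
    (step F)^[n] (fun i => c * y i) = fun i => c ^ (d ^ n) * (step F)^[n] y i := by
  induction n with
  | zero => simp
  | succ n ih =>
    rw [Function.iterate_succ_apply', ih, Function.iterate_succ_apply']
    funext i
    simp only [step]
    rw [IsHomogeneous_aeval_smul (hF i), ← pow_mul, ← pow_succ]

/-- two integral polynomials congruent modulo `p` have the same values in characteristic `p` -/
lemma ev_congr_mod (p : ℕ) {σ : Type*} {P Q : MvPolynomial σ ℤ}
    (h : MvPolynomial.map (Int.castRingHom (ZMod p)) P = MvPolynomial.map (Int.castRingHom (ZMod p)) Q)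
    {k : Type*} [CommRing k] [CharP k p] (y : σ → k) : ev y P = ev y Q := by
  have key : ∀ P : MvPolynomial σ ℤ, ev y P
      = eval₂ (ZMod.castHom (dvd_refl p) k) y (MvPolynomial.map (Int.castRingHom (ZMod p)) P) := by
    intro P
    rw [eval₂_map, ev]
    congr 1
    exact RingHom.ext_int _ _
  rw [key, key, h]

lemma charP_of_natCast_eq_zero (p : ℕ) (hp : p.Prime) (k : Type*) [Field k] (h : (p : k) = 0) :
    CharP k p := by
  obtain ⟨q, hq⟩ := CharP.exists k
  have h1 : q ∣ p := (CharP.cast_eq_zero_iff k q p).1 h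
  rcases (Nat.dvd_prime hp).1 h1 with h2 | h2
  · subst h2
    exact absurd rfl (CharP.char_ne_one k 1)
  · subst h2; exact hq

section DVR

variable {R : Type*} [CommRing R] [IsLocalRing R]

/-- Along the orbit of a point with at least one unit coordinate, the Jacobian of any integral lift
of the power map is a unit. -/
lemma isUnit_det_orbit {m : ℕ} (p : ℕ) [Fact p.Prime]
    (hpR : (p : R) ∈ IsLocalRing.maximalIdeal R)
    (f : Polynomial ℤ) (hf : f.Monic) (hfm : f.natDegree = m) (d : ℕ) (hd0 : d ≠ 0)
    (hd : ¬ p ∣ d)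
    (hirr : Irreducible (f.map (Int.castRingHom (IsLocalRing.ResidueField R))))
    (F : Fin m → MvPolynomial (Fin m) ℤ)
    (hF : ∀ i, MvPolynomial.map (Int.castRingHom (ZMod p)) (F i)
      = MvPolynomial.map (Int.castRingHom (ZMod p)) (powForm m f d i))
    (a : Fin m → R) (ha : ∃ i, IsUnit (a i)) (n : ℕ) :
    IsUnit (jac (fun i => MvPolynomial.map (Int.castRingHom R) (F i))
      ((step (fun i => MvPolynomial.map (Int.castRingHom R) (F i)))^[n] a)).det := by
  classical
  let k := IsLocalRing.ResidueField R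
  let res : R →+* k := IsLocalRing.residue R
  have hpk : (p : k) = 0 := by
    have := (IsLocalRing.residue_eq_zero_iff (p : R)).2 hpR
    simpa using this
  have : CharP k p := charP_of_natCast_eq_zero p Fact.out k hpk
  have hdk : (d : k) ≠ 0 := by
    intro h
    exact hd ((CharP.cast_eq_zero_iff k p d).1 h)
  set FR : Fin m → MvPolynomial (Fin m) R := fun i => MvPolynomial.map (Int.castRingHom R) (F i)
    with hFR
  have hres : ∀ (P : MvPolynomial (Fin m) ℤ) (x : Fin m → R),
      res (eval x (MvPolynomial.map (Int.castRingHom R) P)) = ev (fun i => res (x i)) P := by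
    intro P x
    rw [eval_map_eq_ev, map_ev]
  have hstep : ∀ x : Fin m → R, ∀ i, res (step FR x i)
      = ev (fun i => res (x i)) (powForm m f d i) := by
    intro x i
    rw [← ev_congr_mod p (hF i)]
    simp only [step, hFR]
    rw [MvPolynomial.aeval_eq_eval]
    exact hres (F i) x
  have hne : ∀ n, (fun i => res ((step FR)^[n] a i)) ≠ 0 := by
    intro n
    induction n with
    | zero =>
      obtain ⟨i, hi⟩ := ha
      intro h
      exact (IsLocalRing.residue_ne_zero_iff_isUnit (a i)).2 hi (congrFun h i)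
    | succ n ih =>
      intro h
      apply ih
      apply powForm_zero f hf hfm d hd0 hirr.squarefree
      intro i
      rw [← hstep, ← Function.iterate_succ_apply' (step FR)]
      exact congrFun h i
  rw [← IsLocalRing.residue_ne_zero_iff_isUnit]
  set x := (step FR)^[n] a with hx
  change res _ ≠ 0
  rw [RingHom.map_det]
  intro hdet
  obtain ⟨v, hv, hv0⟩ := Matrix.exists_mulVec_eq_zero_iff.2 hdet
  apply hv
  apply powForm_jac f hf hfm d hdk hirr (fun i => res (x i)) v (hne n)
  intro i
  have h1 := congrFun hv0 i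
  simp only [Matrix.mulVec, dotProduct, Pi.zero_apply] at h1
  rw [← h1]
  refine Finset.sum_congr rfl fun j _ => ?_
  congr 1
  rw [RingHom.mapMatrix_apply, Matrix.map_apply]
  simp only [jac, Matrix.of_apply, hFR]
  rw [pderiv_map, hres]
  symm
  apply ev_congr_mod p
  rw [← pderiv_map, ← pderiv_map, hF i]

end DVR

/-- there is a valuation subring of `ℂ` in which `p` is not a unit -/
lemma exists_valuationSubring (p : ℕ) (hp : p.Prime) :
    ∃ A : ValuationSubring ℂ, (p : A) ∈ IsLocalRing.maximalIdeal A := by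
  have := Fact.mk hp
  let I : Ideal ℤ := Ideal.span {(p : ℤ)}
  have hI : I.IsPrime := by
    rw [Ideal.span_singleton_prime (by exact_mod_cast hp.ne_zero)]
    exact Nat.prime_iff_prime_int.1 hp
  let R₀ := Localization.AtPrime I
  let f : R₀ →+* ℂ := IsLocalization.lift (M := I.primeCompl) (g := Int.castRingHom ℂ) (by
    intro y
    have hy : (y : ℤ) ≠ 0 := by
      intro h
      exact y.2 (by rw [h]; exact I.zero_mem)
    rw [isUnit_iff_ne_zero]
    simpa using hy)
  obtain ⟨A, hA, hloc⟩ := IsLocalRing.exists_factor_valuationRing f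
  refine ⟨A, ?_⟩
  rw [IsLocalRing.mem_maximalIdeal]
  intro hu
  have h1 : IsUnit (f.codRestrict A.toSubring hA (p : R₀)) := by
    have : f.codRestrict A.toSubring hA (p : R₀) = (p : A) := by
      simp
    rw [this]; exact hu
  have h2 : IsUnit (p : R₀) := (isUnit_map_iff (f.codRestrict A.toSubring hA) _).1 h1
  have h3 : ((p : ℤ) : R₀) = algebraMap ℤ R₀ (p : ℤ) := by simp
  have h4 : IsUnit (algebraMap ℤ R₀ (p : ℤ)) := by
    rw [← h3]; simpa using h2
  rw [IsLocalization.AtPrime.isUnit_to_map_iff R₀ I] at h4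
  exact h4 (Ideal.mem_span_singleton_self _)

/-- Every integral lift of the power map has only the trivial complex zero, i.e. it is an
endomorphism of complex projective space. -/
lemma lift_zero {m : ℕ} (p : ℕ) [Fact p.Prime]
    (f : Polynomial ℤ) (hf : f.Monic) (hfm : f.natDegree = m) (d : ℕ) (hd0 : d ≠ 0)
    (hirr : Irreducible (f.map (Int.castRingHom (ZMod p))))
    (F : Fin m → MvPolynomial (Fin m) ℤ) (hh : ∀ i, (F i).IsHomogeneous d)
    (hF : ∀ i, MvPolynomial.map (Int.castRingHom (ZMod p)) (F i)
      = MvPolynomial.map (Int.castRingHom (ZMod p)) (powForm m f d i))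
    (x : Fin m → ℂ) (hx : ∀ i, ev x (F i) = 0) : x = 0 := by
  classical
  by_contra hne
  obtain ⟨A, hA⟩ := exists_valuationSubring p Fact.out
  have hne' : ∃ i, x i ≠ 0 := by
    by_contra h
    push Not at h
    exact hne (funext h)
  obtain ⟨i₁, hi₁⟩ := hne'
  obtain ⟨i₀, _, hmax⟩ := Finset.exists_max_image (Finset.univ : Finset (Fin m))
    (fun i => A.valuation (x i)) ⟨i₁, Finset.mem_univ _⟩
  have hx0 : x i₀ ≠ 0 := by
    intro h
    have h1 := hmax i₁ (Finset.mem_univ _)
    simp only [h, map_zero] at h1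
    have h2 : A.valuation (x i₁) = 0 := le_antisymm h1 zero_le
    exact hi₁ ((Valuation.zero_iff _).1 h2)
  have hmem : ∀ i, (x i₀)⁻¹ * x i ∈ A := by
    intro i
    rw [← ValuationSubring.valuation_le_one_iff, map_mul, map_inv₀]
    have h0 : A.valuation (x i₀) ≠ 0 := (Valuation.ne_zero_iff _).2 hx0
    have h1 := hmax i (Finset.mem_univ _)
    calc (A.valuation (x i₀))⁻¹ * A.valuation (x i)
        ≤ (A.valuation (x i₀))⁻¹ * A.valuation (x i₀) := by gcongr
      _ = 1 := inv_mul_cancel₀ h0
  let y : Fin m → A := fun i => ⟨(x i₀)⁻¹ * x i, hmem i⟩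
  let κ := IsLocalRing.ResidueField A
  let res : A →+* κ := IsLocalRing.residue A
  have hpκ : (p : κ) = 0 := by
    have := (IsLocalRing.residue_eq_zero_iff (p : A)).2 hA
    simpa using this
  have : CharP κ p := charP_of_natCast_eq_zero p Fact.out κ hpκ
  have hy : ∀ i, ev y (F i) = 0 := by
    intro i
    have h1 : A.subtype (ev y (F i)) = ev (fun i => (x i₀)⁻¹ * x i) (F i) := by
      rw [map_ev]; rfl
    rw [← aeval_eq_ev (fun i => (x i₀)⁻¹ * x i), IsHomogeneous_aeval_smul (hh i), aeval_eq_ev,
      hx i, mul_zero] at h1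
    exact Subtype.ext h1
  have hz : (fun i => res (y i)) = 0 := by
    apply powForm_zero f hf hfm d hd0 (squarefree_map_of_irreducible p f hirr κ)
    intro i
    rw [← ev_congr_mod p (hF i), ← map_ev, hy i, map_zero]
  have h1 : y i₀ = 1 := by
    apply Subtype.ext
    simp [y, inv_mul_cancel₀ hx0]
  have h2 := congrFun hz i₀
  simp only [h1, map_one, Pi.zero_apply] at h2
  exact one_ne_zero h2

end Pool.Agent.Helper37
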