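import Mathlib
import Pool.Agent.Helper37.PadicClass

/-!
# Dynamical Mordell-Lang for lifts of the power map, points over a discrete valuation ring
-/

set_option autoImplicit false

open MvPolynomial

namespace Pool.Agent.Helper37

/-- in a discrete valuation ring one entry of a non-zero tuple divides all the others -/
lemma exists_dvd_all {R : Type*} [CommRing R] [IsDomain R] [ValuationRing R] {m : ℕ}
    (a : Fin m → R) (ha : a ≠ 0) : ∃ i₀, a i₀ ≠ 0 ∧ ∀ i, a i₀ ∣ a i := by
  classical
  have key : ∀ s : Finset (Fin m), s.Nonempty → ∃ i₀ ∈ s, ∀ i ∈ s, a i₀ ∣ a i := by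
    intro s hs
    induction hs using Finset.Nonempty.cons_induction with
    | singleton i => exact ⟨i, by simp, by simp⟩
    | cons i s hi hs ih =>
      obtain ⟨j, hj, hjs⟩ := ih
      rcases ValuationRing.dvd_total (a i) (a j) with h | h
      · refine ⟨i, by simp, ?_⟩
        intro l hl
        rcases Finset.mem_cons.1 hl with rfl | hl
        · exact dvd_rfl
        · exact h.trans (hjs l hl)
      · refine ⟨j, by simp [hj], ?_⟩
        intro l hl
        rcases Finset.mem_cons.1 hl with rfl | hl
        · exact h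
        · exact hjs l hl
  have hne : (Finset.univ : Finset (Fin m)).Nonempty := by
    by_contra h
    rw [Finset.not_nonempty_iff_eq_empty] at h
    apply ha
    funext i
    have := Finset.mem_univ i
    rw [h] at this
    simp at this
  obtain ⟨i₀, _, h⟩ := key _ hne
  refine ⟨i₀, ?_, fun i => h i (Finset.mem_univ i)⟩
  intro h0
  apply ha
  funext i
  have := h i (Finset.mem_univ i)
  rw [h0, zero_dvd_iff] at this
  exact this

/-- DML for integral lifts of the power map at points with coordinates in a discrete valuation ring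
whose residue field keeps `f` irreducible. -/
theorem dml_dvr {m : ℕ} (p : ℕ) [Fact p.Prime]
    (f : Polynomial ℤ) (hf : f.Monic) (hfm : f.natDegree = m) (d : ℕ) (hd0 : d ≠ 0)
    (hd : ¬ p ∣ d)
    (F : Fin m → MvPolynomial (Fin m) ℤ) (hh : ∀ i, (F i).IsHomogeneous d)
    (hF : ∀ i, MvPolynomial.map (Int.castRingHom (ZMod p)) (F i)
      = MvPolynomial.map (Int.castRingHom (ZMod p)) (powForm m f d i))
    {R : Type*} [CommRing R] [IsDomain R] [CharZero R] [IsDiscreteValuationRing R]
    (hpR : (p : R) ∈ IsLocalRing.maximalIdeal R)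
    [Finite (IsLocalRing.ResidueField R)]
    (hirr : Irreducible (f.map (Int.castRingHom (IsLocalRing.ResidueField R))))
    {L : Type*} [Field L] [Algebra R L] (hRL : Function.Injective (algebraMap R L))
    (a : Fin m → R) (ha : a ≠ 0) (c : L) (hc : c ≠ 0)
    (S : Set (MvPolynomial (Fin m) L)) (hS : ∀ g ∈ S, ∃ e, g.IsHomogeneous e) :
    ∃ T : Finset (ℕ × ℕ),
      {n : ℕ | ∀ g ∈ S, eval ((fun (x : Fin m → L) (i : Fin m) =>
          eval x (MvPolynomial.map (Int.castRingHom L) (F i)))^[n]
            (fun i => c * algebraMap R L (a i))) g = 0}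
        = {n : ℕ | ∃ q ∈ T, ∃ m : ℕ, n = q.1 * m + q.2} := by
  classical
  obtain ⟨i₀, hi₀, hdvd⟩ := exists_dvd_all a ha
  choose b hb using hdvd
  have hbu : ∃ i, IsUnit (b i) := by
    refine ⟨i₀, ?_⟩
    have h1 := hb i₀
    have h2 : b i₀ = 1 := by
      apply mul_left_cancel₀ hi₀
      rw [← h1, mul_one]
    rw [h2]; exact isUnit_one
  set FR : Fin m → MvPolynomial (Fin m) R := fun i => MvPolynomial.map (Int.castRingHom R) (F i)
    with hFR
  have hjac := isUnit_det_orbit p hpR f hf hfm d hd0 hd hirr F hF b hbu
  obtain ⟨T, hT⟩ := returnSet_progressions p Fact.out hpR hRL FR b hjac S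
  refine ⟨T, ?_⟩
  rw [← hT]
  ext n
  simp only [Set.mem_ofPred_eq]
  -- the two orbits are proportional
  set c' : L := c * algebraMap R L (a i₀) with hc'
  have hc'0 : c' ≠ 0 := by
    apply mul_ne_zero hc
    intro h
    exact hi₀ (hRL (by rw [h, map_zero]))
  have hFh : ∀ i, (FR i).IsHomogeneous d := fun i => (hh i).map _
  have horb : ∀ n, (fun (x : Fin m → L) (i : Fin m) =>
          eval x (MvPolynomial.map (Int.castRingHom L) (F i)))^[n]
            (fun i => c * algebraMap R L (a i))
      = fun i => c' ^ (d ^ n) * algebraMap R L ((step FR)^[n] b i) := by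
    intro n
    have h1 : (fun (x : Fin m → L) (i : Fin m) =>
          eval x (MvPolynomial.map (Int.castRingHom L) (F i))) = step FR (S := L) := by
      funext x i
      simp only [step, hFR]
      rw [eval_map, aeval_def, eval₂_map]
      congr 1
      exact (RingHom.ext_int _ _)
    rw [h1]
    have h2 : (fun i => c * algebraMap R L (a i)) = fun i => c' * algebraMap R L (b i) := by
      funext i
      rw [hc', hb i, map_mul]; ring
    rw [h2, iterate_smul hFh]
    funext i
    congr 1
    have h3 := step_iterate_map FR (Algebra.ofId R L) n b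
    exact congrFun h3 i
  rw [horb n]
  constructor
  · intro h g hg
    obtain ⟨e, he⟩ := hS g hg
    have h1 := h g hg
    have h2 := IsHomogeneous_aeval_smul he (c' ^ d ^ n) (fun i => algebraMap R L ((step FR)^[n] b i))
    rw [aeval_eq_eval] at h2
    change eval _ g = _ at h2
    rw [h1] at h2
    have h3 : c' ^ (d ^ n) ≠ 0 := pow_ne_zero _ hc'0
    rcases mul_eq_zero.1 h2.symm with h4 | h4
    · exact absurd h4 (pow_ne_zero _ h3)
    · exact h4
  · intro h g hg
    obtain ⟨e, he⟩ := hS g hg
    have h1 := h g hg
    have h2 := IsHomogeneous_aeval_smul he (c' ^ d ^ n) (fun i => algebraMap R L ((step FR)^[n] b i))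
    rw [aeval_eq_eval] at h2
    change eval _ g = _ * eval _ g at h2
    rw [h2, h1, mul_zero]

end Pool.Agent.Helper37
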