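import Mathlib

/-!
# Discrete valuation rings with prescribed residue degree in finite extensions
-/

set_option autoImplicit false

open Module

namespace Pool.Agent.Helper37

lemma natCard_quotient_eq_pow {A B : Type*} [CommRing A] [CommRing B] [Algebra A B]
    [Module.Finite A B] (P : Ideal A) [hP : P.IsMaximal] (q : Ideal B) [q.IsMaximal]
    [q.LiesOver P] : Nat.card (B ⧸ q) = Nat.card (A ⧸ P) ^ q.inertiaDeg A := by
  rw [Ideal.inertiaDeg_eq_of_isMaximal P]
  let _ : Field (A ⧸ P) := Ideal.Quotient.field P
  exact Module.natCard_eq_pow_finrank (K := A ⧸ P) (V := B ⧸ q)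

/-- Let `R₀` be a discrete valuation ring of characteristic zero with fraction field `K₀` and `p`
elements in its residue field.  If the degree of the finite extension `K / K₀` is not a sum of
prime divisors of `M`, some discrete valuation ring of `K` above `R₀` has residue degree
prime to `M`. -/
theorem exists_dvr_above (p : ℕ) [Fact p.Prime] {R₀ K₀ : Type*} {K : Type} [CommRing R₀] [IsDomain R₀]
    [CharZero R₀] [IsDiscreteValuationRing R₀]
    (hp : (p : R₀) ∈ IsLocalRing.maximalIdeal R₀)
    (hcard : Nat.card (IsLocalRing.ResidueField R₀) = p)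
    [Field K₀] [Field K] [Algebra R₀ K₀] [IsFractionRing R₀ K₀] [Algebra K₀ K]
    [FiniteDimensional K₀ K] (M : ℕ)
    (hdeg : finrank K₀ K ∉ AddSubmonoid.closure {l : ℕ | l.Prime ∧ l ∣ M}) :
    ∃ (R : Type) (_ : CommRing R) (_ : IsDomain R) (_ : CharZero R)
      (_ : IsDiscreteValuationRing R) (_ : Algebra R K),
      IsFractionRing R K ∧ (p : R) ∈ IsLocalRing.maximalIdeal R ∧
      ∃ e : ℕ, Nat.card (IsLocalRing.ResidueField R) = p ^ e ∧ Nat.Coprime e M := by
  classical
  have : CharZero K₀ := charZero_of_injective_algebraMap (IsFractionRing.injective R₀ K₀)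
  let _ : Algebra R₀ K := ((algebraMap K₀ K).comp (algebraMap R₀ K₀)).toAlgebra
  have : IsScalarTower R₀ K₀ K := IsScalarTower.of_algebraMap_eq (fun _ => rfl)
  let S := integralClosure R₀ K
  have hDed : IsDedekindDomain S := integralClosure.isDedekindDomain R₀ K₀ K
  have hFrac : IsFractionRing S K := IsIntegralClosure.isFractionRing_of_finite_extension R₀ K₀ K S
  have hFin : Module.Finite R₀ S := IsIntegralClosure.finite R₀ K₀ K S
  have : IsTorsionFree R₀ K := by
    have hinj : Function.Injective (algebraMap R₀ K) :=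
      (algebraMap K₀ K).injective.comp (IsFractionRing.injective R₀ K₀)
    exact Module.IsTorsionFree.of_smul_eq_zero (by
      intro r x hrx
      rw [Algebra.smul_def] at hrx
      rcases mul_eq_zero.1 hrx with h | h
      · left; exact hinj (by rw [h, map_zero])
      · right; exact h)
  have hFree : Module.Free R₀ S := IsIntegralClosure.module_free R₀ K₀ K S
  have hrank : finrank R₀ S = finrank K₀ K := IsIntegralClosure.rank R₀ K₀ K S
  let P := IsLocalRing.maximalIdeal R₀
  have : _root_.Finite (P.primesOver S) := Algebra.QuasiFinite.finite_primesOver P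
  let _ := Fintype.ofFinite (P.primesOver S)
  have hsum := Ideal.sum_ramification_inertia_eq_finrank P S
  obtain ⟨q, hq⟩ : ∃ q : P.primesOver S, Nat.Coprime (q.1.inertiaDeg R₀) M := by
    by_contra hcon
    push Not at hcon
    apply hdeg
    rw [← hrank, ← hsum]
    apply AddSubmonoid.sum_mem
    intro q _
    obtain ⟨l, hl, hl1, hl2⟩ := Nat.Prime.not_coprime_iff_dvd.1 (hcon q)
    obtain ⟨c, hc⟩ := hl1
    rw [hc]
    have h1 : q.1.ramificationIdx R₀ * (l * c) = (q.1.ramificationIdx R₀ * c) • l := by
      simp; ring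
    rw [h1]
    have h2 : l ∈ AddSubmonoid.closure {l : ℕ | l.Prime ∧ l ∣ M} :=
      AddSubmonoid.subset_closure ⟨hl, hl2⟩
    exact AddSubmonoid.nsmul_mem _ h2 _
  have hqmax : q.1.IsMaximal := inferInstance
  have hqlies : q.1.LiesOver P := q.2.2
  have hq0 : q.1 ≠ ⊥ := by
    intro h
    have h1 : P = ⊥ := by
      have := hqlies.over
      rw [this, h]
      exact Ideal.under_bot _ _
    exact IsDiscreteValuationRing.not_a_field R₀ h1
  let R := Localization.AtPrime q.1
  have hDVR : IsDiscreteValuationRing R :=
    IsLocalization.AtPrime.isDiscreteValuationRing_of_dedekind_domain S hq0 R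
  let _ : Algebra R K := IsLocalization.localizationAlgebraOfSubmonoidLe R K q.1.primeCompl
    (nonZeroDivisors S) q.1.primeCompl_le_nonZeroDivisors
  have : IsScalarTower S R K := IsLocalization.localization_isScalarTower_of_submonoid_le R K
    q.1.primeCompl (nonZeroDivisors S) q.1.primeCompl_le_nonZeroDivisors
  have hFR : IsFractionRing R K :=
    IsFractionRing.isFractionRing_of_isDomain_of_isLocalization q.1.primeCompl R K
  have hS0 : CharZero S := charZero_of_injective_algebraMap (R := R₀)
    (FaithfulSMul.algebraMap_injective R₀ S)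
  have hchar : CharZero R := charZero_of_injective_algebraMap (R := S)
    (IsLocalization.injective R q.1.primeCompl_le_nonZeroDivisors)
  refine ⟨R, inferInstance, inferInstance, hchar, hDVR, inferInstance, hFR, ?_, ?_⟩
  · have h1 : algebraMap R₀ S (p : R₀) ∈ q.1 := by
      have h0 : P = Ideal.under R₀ q.1 := hqlies.over
      have h1 : (p : R₀) ∈ Ideal.under R₀ q.1 := by rw [← h0]; exact hp
      exact h1
    have h2 : algebraMap S R (p : S) ∈ IsLocalRing.maximalIdeal R := by
      rw [← Ideal.mem_under, IsLocalization.AtPrime.under_maximalIdeal R q.1]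
      simpa using h1
    simpa using h2
  · refine ⟨q.1.inertiaDeg R₀, ?_, hq⟩
    have h1 : Nat.card (IsLocalRing.ResidueField R) = Nat.card (S ⧸ q.1) :=
      Nat.card_congr (IsLocalization.AtPrime.equivQuotMaximalIdeal q.1 R).symm.toEquiv
    have h2 : Nat.card (R₀ ⧸ P) = p := hcard
    rw [h1, natCard_quotient_eq_pow P q.1, h2]

end Pool.Agent.Helper37
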